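import Pool.Agent.R624.EN.Gen

/-!
The numbering is a bijection; from a falsified substitution instance to a generalised
countermodel of a bounded instance.
-/

namespace R624EN

universe u v

theorem code_surj : Function.Surjective code := by
  intro n
  induction n using Nat.strong_induction_on with
  | _ n ih =>
    have hn : n = 9 * (n / 9) + n % 9 := (Nat.div_add_mod n 9).symm
    have ht : n % 9 < 9 := Nat.mod_lt _ (by norm_num)
    have hlt : n % 9 ≠ 0 → n / 9 < n := by intro h; omega
    have h1 : n % 9 ≠ 0 → (n / 9).unpair.1 < n := fun h =>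
      lt_of_le_of_lt (Nat.unpair_left_le _) (hlt h)
    have h2 : n % 9 ≠ 0 → (n / 9).unpair.2 < n := fun h =>
      lt_of_le_of_lt (Nat.unpair_right_le _) (hlt h)
    by_cases h0 : n % 9 = 0
    · exact ⟨.var (n / 9), by simp only [code]; omega⟩
    obtain ⟨φ, hφ⟩ := ih _ (hlt h0)
    obtain ⟨φ1, hφ1⟩ := ih _ (h1 h0)
    obtain ⟨φ2, hφ2⟩ := ih _ (h2 h0)
    have hp : Nat.pair (n / 9).unpair.1 (n / 9).unpair.2 = n / 9 := Nat.pair_unpair _
    have hc : n % 9 = 1 ∨ n % 9 = 2 ∨ n % 9 = 3 ∨ n % 9 = 4 ∨ n % 9 = 5 ∨ n % 9 = 6 ∨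
      n % 9 = 7 ∨ n % 9 = 8 := by omega
    rcases hc with h | h | h | h | h | h | h | h
    · exact ⟨.neg φ, by simp only [code, hφ]; omega⟩
    · exact ⟨.and φ1 φ2, by simp only [code, hφ1, hφ2, hp]; omega⟩
    · exact ⟨.K φ, by simp only [code, hφ]; omega⟩
    · exact ⟨.E φ, by simp only [code, hφ]; omega⟩
    · exact ⟨.ann φ1 φ2, by simp only [code, hφ1, hφ2, hp]; omega⟩
    · exact ⟨.add φ1 φ2, by simp only [code, hφ1, hφ2, hp]; omega⟩
    · exact ⟨.del φ1 φ2, by simp only [code, hφ1, hφ2, hp]; omega⟩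
    · exact ⟨.real φ1 φ2, by simp only [code, hφ1, hφ2, hp]; omega⟩

theorem code_inj : Function.Injective code := by
  intro φ
  induction φ with
  | var p => intro ψ h; cases ψ <;> simp only [code] at h <;> first | omega | (congr 1; omega)
  | neg φ ih =>
    intro ψ h
    cases ψ <;> simp only [code] at h <;> first | omega | (congr 1; exact ih (by omega))
  | K φ ih =>
    intro ψ h
    cases ψ <;> simp only [code] at h <;> first | omega | (congr 1; exact ih (by omega))
  | E φ ih =>
    intro ψ h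
    cases ψ <;> simp only [code] at h <;> first | omega | (congr 1; exact ih (by omega))
  | and φ ψ ih1 ih2 =>
    intro χ h
    cases χ <;> simp only [code] at h <;> first | omega | skip
    rename_i a b
    have h0 : Nat.pair (code φ) (code ψ) = Nat.pair (code a) (code b) := by omega
    have h1 := Nat.pair_eq_pair.1 h0
    rw [ih1 h1.1, ih2 h1.2]
  | ann φ ψ ih1 ih2 =>
    intro χ h
    cases χ <;> simp only [code] at h <;> first | omega | skip
    rename_i a b
    have h0 : Nat.pair (code φ) (code ψ) = Nat.pair (code a) (code b) := by omega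
    have h1 := Nat.pair_eq_pair.1 h0
    rw [ih1 h1.1, ih2 h1.2]
  | add φ ψ ih1 ih2 =>
    intro χ h
    cases χ <;> simp only [code] at h <;> first | omega | skip
    rename_i a b
    have h0 : Nat.pair (code φ) (code ψ) = Nat.pair (code a) (code b) := by omega
    have h1 := Nat.pair_eq_pair.1 h0
    rw [ih1 h1.1, ih2 h1.2]
  | del φ ψ ih1 ih2 =>
    intro χ h
    cases χ <;> simp only [code] at h <;> first | omega | skip
    rename_i a b
    have h0 : Nat.pair (code φ) (code ψ) = Nat.pair (code a) (code b) := by omega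
    have h1 := Nat.pair_eq_pair.1 h0
    rw [ih1 h1.1, ih2 h1.2]
  | real φ ψ ih1 ih2 =>
    intro χ h
    cases χ <;> simp only [code] at h <;> first | omega | skip
    rename_i a b
    have h0 : Nat.pair (code φ) (code ψ) = Nat.pair (code a) (code b) := by omega
    have h1 := Nat.pair_eq_pair.1 h0
    rw [ih1 h1.1, ih2 h1.2]

section
open Classical
variable {σ : ℕ → Form} {φ : Form}

theorem BB_strict {k l : ℕ} (h : k < l) : BB k < BB l := by
  have h1 : BB k < BB (k + 1) := by
    simp only [BB]
    have := Nat.left_le_pair (BB k + 1) (BB k + 1)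
    omega
  exact h1.trans_le (BB_mono h)

theorem num_inj {a x : Form} (ha : a ∈ XX σ φ) (hx : x ∈ XX σ φ)
    (h : num σ φ a = num σ φ x) : a = x := by
  apply code_inj
  by_contra hne
  rcases lt_or_gt_of_ne hne with h1 | h1
  · have := BB_strict (idx_lt σ φ ha h1)
    simp only [num] at h
    omega
  · have := BB_strict (idx_lt σ φ hx h1)
    simp only [num] at h
    omega

variable (σ φ)

/-- the inverse substitution -/
noncomputable def uu (j : ℕ) : Form :=
  if h : ∃ x ∈ XX σ φ, num σ φ x = j then h.choose else .var 0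

variable {σ φ}

theorem uu_num {x : Form} (hx : x ∈ XX σ φ) : uu σ φ (num σ φ x) = x := by
  have h : ∃ y ∈ XX σ φ, num σ φ y = num σ φ x := ⟨x, hx, rfl⟩
  rw [uu, dif_pos h]
  exact num_inj h.choose_spec.1 hx h.choose_spec.2

theorem uu_tt (x : Form) : x ∈ XX σ φ → subst (uu σ φ) (tt σ φ x) = x := by
  induction x using (measure code).wf.induction with
  | _ x ih =>
    intro hx
    rcases tt_cases (σ := σ) (φ := φ) x with h | ⟨hc, h⟩
    · rw [h]
      exact uu_num hx
    · have key : ∀ a, Imm a x → subst (uu σ φ) (tt σ φ a) = a := fun a ha =>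
        ih a ha.code_lt (hc.imm ha)
      rcases h with ⟨a, rfl, h⟩ | ⟨a, rfl, h⟩ | ⟨a, rfl, h⟩ | ⟨a, b, rfl, h⟩ | ⟨a, b, rfl, h⟩ |
        ⟨a, b, rfl, h⟩ | ⟨a, b, rfl, h⟩ | ⟨a, b, rfl, h⟩
      · rw [h, subst, key a (.neg a)]
      · rw [h, subst, key a (.K a)]
      · rw [h, subst, key a (.E a)]
      · rw [h, subst, key a (.and1 a b), key b (.and2 a b)]
      · rw [h, subst, key a (.ann1 a b), key b (.ann2 a b)]
      · rw [h, subst, key a (.add1 a b), key b (.add2 a b)]
      · rw [h, subst, key a (.del1 a b), key b (.del2 a b)]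
      · rw [h, subst, key a (.real1 a b), key b (.real2 a b)]

theorem tt_inj {a x : Form} (ha : a ∈ XX σ φ) (hx : x ∈ XX σ φ)
    (h : tt σ φ a = tt σ φ x) : a = x := by
  rw [← uu_tt a ha, ← uu_tt x hx, h]

variable (σ φ) in
/-- the actual awareness set described by a generalised one -/
def act (S0 S : Set Form) : Set Form :=
  {a | (a ∈ XX σ φ ∧ tt σ φ a ∈ S) ∨ (a ∉ XX σ φ ∧ a ∈ S0)}

theorem act_add {S0 S : Set Form} {y : Form} (hy : y ∈ XX σ φ) :
    act σ φ S0 (S ∪ {tt σ φ y}) = act σ φ S0 S ∪ {y} := by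
  ext a
  simp only [act, Set.mem_union, Set.mem_singleton_iff, Set.mem_ofPred_eq]
  constructor
  · rintro (⟨h1, h2 | h2⟩ | h)
    · exact Or.inl (Or.inl ⟨h1, h2⟩)
    · exact Or.inr (tt_inj h1 hy h2)
    · exact Or.inl (Or.inr h)
  · rintro ((⟨h1, h2⟩ | h) | rfl)
    · exact Or.inl ⟨h1, Or.inl h2⟩
    · exact Or.inr h
    · exact Or.inl ⟨hy, Or.inr rfl⟩

theorem act_del {S0 S : Set Form} {y : Form} (hy : y ∈ XX σ φ) :
    act σ φ S0 (S \ {tt σ φ y}) = act σ φ S0 S \ {y} := by
  ext a
  simp only [act, Set.mem_sdiff, Set.mem_singleton_iff, Set.mem_ofPred_eq]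
  constructor
  · rintro (⟨h1, h2, h3⟩ | ⟨h1, h2⟩)
    · exact ⟨Or.inl ⟨h1, h2⟩, fun h => h3 (by rw [h])⟩
    · exact ⟨Or.inr ⟨h1, h2⟩, fun h => h1 (h ▸ hy)⟩
  · rintro ⟨⟨h1, h2⟩ | ⟨h1, h2⟩, h3⟩
    · exact Or.inl ⟨h1, h2, fun h => h3 (tt_inj h1 hy h)⟩
    · exact Or.inr ⟨h1, h2⟩

variable {W : Type u}

variable (σ φ) in
/-- the generalised valuation obtained from a substitution -/
def vg (V : ℕ → W → Prop) (S0 : Set Form) : ℕ → Set W → Set Form → W → Prop :=
  fun j D S w => truthG (fun p _ _ => V p) (uu σ φ j) D (act σ φ S0 S) w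

theorem vg_dep (V : ℕ → W → Prop) (S0 : Set Form) : Dep (vg σ φ V S0) := by
  intro j D S S' w h
  apply local_dep
  intro a ha
  simp only [act, Set.mem_ofPred_eq]
  by_cases hX : a ∈ XX σ φ
  · simp only [hX, true_and, not_true, false_and, or_false]
    apply h
    by_cases hj : ∃ x ∈ XX σ φ, num σ φ x = j
    · obtain ⟨x, hx, rfl⟩ := hj
      rw [uu_num hx] at ha
      have h1 := code_tt a hX
      have h2 : BB (idx σ φ a + 1) ≤ BB (idx σ φ x) := BB_mono (idx_lt σ φ hX ha)
      simp only [num]
      omega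
    · rw [uu, dif_neg hj] at ha
      simp [code] at ha
  · simp [hX]

theorem vg_truth (V : ℕ → W → Prop) (S0 : Set Form) (x : Form) : x ∈ XX σ φ →
    ∀ (D : Set W) (S : Set Form) (w : W), (truthG (vg σ φ V S0) (tt σ φ x) D S w ↔
      truthG (fun p _ _ => V p) x D (act σ φ S0 S) w) := by
  induction x using (measure code).wf.induction with
  | _ x ih =>
    intro hx D S w
    rcases tt_cases (σ := σ) (φ := φ) x with h | ⟨hc, h⟩
    · rw [h]
      simp only [truthG, vg, uu_num hx]
    · have key : ∀ a, Imm a x → ∀ (D : Set W) (S : Set Form) (w : W),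
          (truthG (vg σ φ V S0) (tt σ φ a) D S w ↔
            truthG (fun p _ _ => V p) a D (act σ φ S0 S) w) := fun a ha =>
        ih a ha.code_lt (hc.imm ha)
      rcases h with ⟨a, rfl, h⟩ | ⟨a, rfl, h⟩ | ⟨a, rfl, h⟩ | ⟨a, b, rfl, h⟩ | ⟨a, b, rfl, h⟩ |
        ⟨a, b, rfl, h⟩ | ⟨a, b, rfl, h⟩ | ⟨a, b, rfl, h⟩
      · rw [h]; simp only [truthG, key a (.neg a)]
      · rw [h]; simp only [truthG, key a (.K a)]
      · rw [h]
        simp only [truthG, act, Set.mem_ofPred_eq, hc.imm (.E a), true_and, not_true, false_and,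
          or_false]
      · rw [h]; simp only [truthG, key a (.and1 a b), key b (.and2 a b)]
      · rw [h]; simp only [truthG, key a (.ann1 a b), key b (.ann2 a b)]
      · rw [h]; simp only [truthG, key b (.add2 a b), act_add (hc.imm (.add1 a b))]
      · rw [h]; simp only [truthG, key b (.del2 a b), act_del (hc.imm (.del1 a b))]
      · rw [h]
        simp only [truthG, key a (.real1 a b), key b (.real2 a b), act_add (hc.imm (.real1 a b))]

end

/-- letters of a formula are bounded by its code; substitutions agreeing there agree -/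
theorem subst_congr {σ τ : ℕ → Form} (φ : Form) : ∀ a, code φ ≤ a → (∀ p ≤ a, σ p = τ p) →
    subst σ φ = subst τ φ := by
  induction φ with
  | var p => intro a ha h; exact h p (by simp only [code] at ha; omega)
  | neg φ ih => intro a ha h; simp only [code] at ha; simp only [subst, ih a (by omega) h]
  | K φ ih => intro a ha h; simp only [code] at ha; simp only [subst, ih a (by omega) h]
  | E φ ih => intro a ha h; simp only [code] at ha; simp only [subst, ih a (by omega) h]
  | and φ ψ ih1 ih2 =>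
    intro a ha h; simp only [code] at ha
    have := Nat.left_le_pair (code φ) (code ψ); have := Nat.right_le_pair (code φ) (code ψ)
    simp only [subst, ih1 a (by omega) h, ih2 a (by omega) h]
  | ann φ ψ ih1 ih2 =>
    intro a ha h; simp only [code] at ha
    have := Nat.left_le_pair (code φ) (code ψ); have := Nat.right_le_pair (code φ) (code ψ)
    simp only [subst, ih1 a (by omega) h, ih2 a (by omega) h]
  | add φ ψ ih1 ih2 =>
    intro a ha h; simp only [code] at ha
    have := Nat.left_le_pair (code φ) (code ψ); have := Nat.right_le_pair (code φ) (code ψ)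
    simp only [subst, ih1 a (by omega) h, ih2 a (by omega) h]
  | del φ ψ ih1 ih2 =>
    intro a ha h; simp only [code] at ha
    have := Nat.left_le_pair (code φ) (code ψ); have := Nat.right_le_pair (code φ) (code ψ)
    simp only [subst, ih1 a (by omega) h, ih2 a (by omega) h]
  | real φ ψ ih1 ih2 =>
    intro a ha h; simp only [code] at ha
    have := Nat.left_le_pair (code φ) (code ψ); have := Nat.right_le_pair (code φ) (code ψ)
    simp only [subst, ih1 a (by omega) h, ih2 a (by omega) h]

/-- letters occurring in a formula -/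
theorem subst_congr_mem {σ τ : ℕ → Form} (φ : Form) :
    (∀ p, .var p ∈ subs φ → σ p = τ p) → subst σ φ = subst τ φ := by
  induction φ with
  | var p => intro h; exact h p (self_mem _)
  | neg φ ih => intro h; simp only [subst, ih fun p hp => h p (by simp [subs, hp])]
  | K φ ih => intro h; simp only [subst, ih fun p hp => h p (by simp [subs, hp])]
  | E φ ih => intro h; simp only [subst, ih fun p hp => h p (by simp [subs, hp])]
  | and φ ψ ih1 ih2 =>
    intro h
    simp only [subst, ih1 fun p hp => h p (by simp [subs, hp]),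
      ih2 fun p hp => h p (by simp [subs, hp])]
  | ann φ ψ ih1 ih2 =>
    intro h
    simp only [subst, ih1 fun p hp => h p (by simp [subs, hp]),
      ih2 fun p hp => h p (by simp [subs, hp])]
  | add φ ψ ih1 ih2 =>
    intro h
    simp only [subst, ih1 fun p hp => h p (by simp [subs, hp]),
      ih2 fun p hp => h p (by simp [subs, hp])]
  | del φ ψ ih1 ih2 =>
    intro h
    simp only [subst, ih1 fun p hp => h p (by simp [subs, hp]),
      ih2 fun p hp => h p (by simp [subs, hp])]
  | real φ ψ ih1 ih2 =>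
    intro h
    simp only [subst, ih1 fun p hp => h p (by simp [subs, hp]),
      ih2 fun p hp => h p (by simp [subs, hp])]

open Classical in
/-- From a falsified instance to a generalised countermodel of a bounded instance. -/
theorem exists_gen {φ : Form} (h : ¬ SchemValid.{u} φ) :
    ∃ (τ : ℕ → Form) (W : Type u) (V : ℕ → Set W → Set Form → W → Prop) (S : Set Form) (w : W),
      (∀ p, code (τ p) ≤ BB (sz φ)) ∧ code (subst τ φ) ≤ BB (sz φ) ∧ Dep V ∧
      ¬ truthG V (subst τ φ) Set.univ S w := by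
  unfold SchemValid Valid at h
  push Not at h
  obtain ⟨σ, M, w, hw⟩ := h
  let C := {v : M.W // M.e w v}
  have h1 := truth_class (C := C) Subtype.val M.e M.V
    (fun c c' => M.he.trans (M.he.symm c.2) c'.2)
    (fun c v hv => ⟨⟨v, M.he.trans c.2 hv⟩, rfl⟩) (subst σ φ) Set.univ M.A (M.A w)
    (fun c => (M.hA _ _ c.2).symm) ⟨w, M.he.refl w⟩
  simp only [Set.preimage_univ] at h1
  rw [h1] at hw
  set V : ℕ → C → Prop := fun p c => M.V p c.1 with hV
  set S0 := M.A w
  have hX : ∀ ψ ∈ subs φ, subst σ ψ ∈ XX σ φ := fun ψ hψ => ⟨ψ, hψ, rfl⟩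
  let τ : ℕ → Form := fun p => if Form.var p ∈ subs φ then tt σ φ (σ p) else .var 0
  have hτ : subst τ φ = tt σ φ (subst σ φ) := by
    rw [tt_subst φ (self_mem φ)]
    apply subst_congr_mem
    intro p hp
    simp only [τ, if_pos hp]
  have hb : ∀ x ∈ XX σ φ, code (tt σ φ x) ≤ BB (sz φ) := by
    intro x hx
    refine (code_tt x hx).trans (BB_mono ?_)
    have h2 := idx_lt_card σ φ hx
    have h3 := card_XF σ φ
    omega
  let S : Set Form := {ξ | ∃ a ∈ XX σ φ, tt σ φ a = ξ ∧ a ∈ S0}
  have hS : act σ φ S0 S = S0 := by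
    ext a
    simp only [act, S, Set.mem_ofPred_eq]
    by_cases ha : a ∈ XX σ φ
    · simp only [ha, true_and, not_true, false_and, or_false]
      constructor
      · rintro ⟨b, hb, h2, h3⟩
        rwa [← tt_inj hb ha h2]
      · intro h3
        exact ⟨a, ha, rfl, h3⟩
    · simp [ha]
  refine ⟨τ, C, vg σ φ V S0, S, ⟨w, M.he.refl w⟩, ?_, ?_, vg_dep V S0, ?_⟩
  · intro p
    by_cases hp : Form.var p ∈ subs φ
    · simp only [τ, if_pos hp]
      exact hb _ (hX _ hp)
    · simp only [τ, if_neg hp, code]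
      omega
  · rw [hτ]
    exact hb _ (hX _ (self_mem φ))
  · rw [hτ, vg_truth V S0 _ (hX _ (self_mem φ)), hS]
    exact hw

end R624EN
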