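import Pool.Agent.R624.EN.Eval

/-!
Computability of the evaluator, of substitution, and of schematic validity.
-/

namespace R624EN

open Nat.Partrec (Code)
open R624DI (ball mk ball_iff prim_ball prim_pow2 prim_mk prim_tb prim_testBit prim_pair prim_lt
  prim_u1 prim_u2 prim_and prim_or prim_not prim_beqB prim_beqN prim_case comp_ball prim_p2)

universe u

section
variable {α : Type*} [Primcodable α] {n T D S b p X Y : α → ℕ}

theorem prim_litN (hn : Primrec n) (hT : Primrec T) (hD : Primrec D) (hS : Primrec S)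
    (hp : Primrec p) : Primrec fun a => litN (n a) (T a) (D a) (S a) (p a) := by
  unfold litN
  refine prim_mk ?_ hn
  have h1 : Primrec fun a => mk (fun i => (S a).testBit i) (p a) := by
    refine prim_mk ?_ hp
    exact prim_testBit (hS.comp Primrec.fst) Primrec.snd
  exact prim_testBit (hT.comp Primrec.fst) (prim_pair (hp.comp Primrec.fst)
    (prim_pair (hD.comp Primrec.fst) (prim_pair (h1.comp Primrec.fst) Primrec.snd)))

theorem prim_negN (hn : Primrec n) (hX : Primrec X) : Primrec fun a => negN (n a) (X a) := by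
  unfold negN
  refine prim_mk ?_ hn
  exact prim_not (prim_testBit (hX.comp Primrec.fst) Primrec.snd)

theorem prim_andN (hn : Primrec n) (hX : Primrec X) (hY : Primrec Y) :
    Primrec fun a => andN (n a) (X a) (Y a) := by
  unfold andN
  refine prim_mk ?_ hn
  exact prim_and (prim_testBit (hX.comp Primrec.fst) Primrec.snd)
    (prim_testBit (hY.comp Primrec.fst) Primrec.snd)

theorem prim_boxN (hn : Primrec n) (hD : Primrec D) (hX : Primrec X) :
    Primrec fun a => boxN (n a) (D a) (X a) := by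
  unfold boxN
  refine prim_mk ?_ hn
  refine prim_ball (p := fun (x : α × ℕ) v =>
    !(D x.1).testBit v || (X x.1).testBit v) ?_ (hn.comp Primrec.fst)
  exact prim_or (prim_not (prim_testBit (hD.comp (Primrec.fst.comp Primrec.fst)) Primrec.snd))
    (prim_testBit (hX.comp (Primrec.fst.comp Primrec.fst)) Primrec.snd)

theorem prim_entN (hn : Primrec n) (hS : Primrec S) (hb : Primrec b) :
    Primrec fun a => entN (n a) (S a) (b a) := by
  unfold entN
  refine prim_mk ?_ hn
  exact prim_testBit (hS.comp Primrec.fst) (hb.comp Primrec.fst)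

theorem prim_impN (hn : Primrec n) (hX : Primrec X) (hY : Primrec Y) :
    Primrec fun a => impN (n a) (X a) (Y a) := by
  unfold impN
  refine prim_mk ?_ hn
  exact prim_or (prim_not (prim_testBit (hX.comp Primrec.fst) Primrec.snd))
    (prim_testBit (hY.comp Primrec.fst) Primrec.snd)

theorem prim_addN (hS : Primrec S) (hb : Primrec b) : Primrec fun a => addN (S a) (b a) := by
  unfold addN
  refine prim_mk ?_ (Primrec.succ.comp (Primrec.nat_add.comp hS hb))
  exact prim_or (prim_testBit (hS.comp Primrec.fst) Primrec.snd)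
    (prim_beqN Primrec.snd (hb.comp Primrec.fst))

theorem prim_delN (hS : Primrec S) (hb : Primrec b) : Primrec fun a => delN (S a) (b a) := by
  unfold delN
  refine prim_mk ?_ hS
  exact prim_and (prim_testBit (hS.comp Primrec.fst) Primrec.snd)
    (prim_not (prim_beqN Primrec.snd (hb.comp Primrec.fst)))

theorem prim_lkp (hX : Primrec X) (hp : Primrec p) : Primrec fun a => lkp (X a) (p a) := by
  unfold lkp
  refine prim_mk ?_ hX
  exact prim_testBit (hX.comp Primrec.fst) (prim_pair (hp.comp Primrec.fst) Primrec.snd)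

theorem prim_fullN (hn : Primrec n) : Primrec fun a => fullN (n a) := by
  unfold fullN
  refine prim_mk ?_ hn
  exact Primrec.const true

end

/-! ### the recursion for the evaluator -/

def pb (x : ℕ) : ℕ := x.unpair.1 / 9
def pt (x : ℕ) : ℕ := x.unpair.1 % 9
def pn (x : ℕ) : ℕ := x.unpair.2.unpair.1
def pT (x : ℕ) : ℕ := x.unpair.2.unpair.2.unpair.1
def pD (x : ℕ) : ℕ := x.unpair.2.unpair.2.unpair.2.unpair.1
def pS (x : ℕ) : ℕ := x.unpair.2.unpair.2.unpair.2.unpair.2

/-- packing -/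
def pk (a n T D S : ℕ) : ℕ := Nat.pair a (Nat.pair n (Nat.pair T (Nat.pair D S)))

section
variable {α : Type*} [Primcodable α] {f : α → ℕ}

theorem prim_pb (hf : Primrec f) : Primrec fun a => pb (f a) :=
  Primrec.nat_div.comp (prim_u1 hf) (Primrec.const 9)
theorem prim_pt (hf : Primrec f) : Primrec fun a => pt (f a) :=
  Primrec.nat_mod.comp (prim_u1 hf) (Primrec.const 9)
theorem prim_pn (hf : Primrec f) : Primrec fun a => pn (f a) := prim_u1 (prim_u2 hf)
theorem prim_pT (hf : Primrec f) : Primrec fun a => pT (f a) := prim_u1 (prim_u2 (prim_u2 hf))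
theorem prim_pD (hf : Primrec f) : Primrec fun a => pD (f a) :=
  prim_u1 (prim_u2 (prim_u2 (prim_u2 hf)))
theorem prim_pS (hf : Primrec f) : Primrec fun a => pS (f a) :=
  prim_u2 (prim_u2 (prim_u2 (prim_u2 hf)))

theorem prim_pk {a n T D S : α → ℕ} (ha : Primrec a) (hn : Primrec n) (hT : Primrec T)
    (hD : Primrec D) (hS : Primrec S) : Primrec fun x => pk (a x) (n x) (T x) (D x) (S x) :=
  prim_pair ha (prim_pair hn (prim_pair hT (prim_pair hD hS)))

end

/-- argument of the first recursive call -/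
def g1 (x : ℕ) : ℕ :=
  pk (cond (pt x == 1) (pb x) (cond (pt x == 3) (pb x) (pb x).unpair.1))
    (pn x) (pT x) (pD x) (pS x)

/-- argument of the second recursive call -/
def g2 (x X : ℕ) : ℕ :=
  pk (pb x).unpair.2 (pn x) (pT x)
    (cond (pt x == 5) (andN (pn x) (pD x) X) (pD x))
    (cond (pt x == 6) (addN (pS x) (pb x).unpair.1)
      (cond (pt x == 8) (addN (pS x) (pb x).unpair.1)
        (cond (pt x == 7) (delN (pS x) (pb x).unpair.1) (pS x))))

/-- final step -/
def fin (x X Y : ℕ) : ℕ :=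
  cond (pt x == 0) (litN (pn x) (pT x) (pD x) (pS x) (pb x))
  (cond (pt x == 1) (negN (pn x) X)
  (cond (pt x == 2) (andN (pn x) X Y)
  (cond (pt x == 3) (boxN (pn x) (pD x) X)
  (cond (pt x == 4) (entN (pn x) (pS x) (pb x))
  (cond (pt x == 5) (impN (pn x) X Y)
  (cond (pt x == 8) (impN (pn x) (boxN (pn x) (pD x) X) Y) Y))))))

/-- is there a first call -/
def c1 (x : ℕ) : Bool := !((pt x == 0) || ((pt x == 4) || ((pt x == 6) || (pt x == 7))))

/-- is there a second call -/
def c2 (x : ℕ) : Bool :=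
  (pt x == 2) || ((pt x == 5) || ((pt x == 6) || ((pt x == 7) || (pt x == 8))))

theorem prim_g1 : Primrec g1 := by
  have hx : Primrec fun x : ℕ => x := Primrec.id
  have ht := prim_pt hx
  have hb := prim_pb hx
  exact prim_pk (prim_case ht hb (prim_case ht hb (prim_u1 hb)))
    (prim_pn hx) (prim_pT hx) (prim_pD hx) (prim_pS hx)

theorem prim_g2 : Primrec₂ g2 := by
  have hx : Primrec fun x : ℕ × ℕ => x.1 := Primrec.fst
  have hX : Primrec fun x : ℕ × ℕ => x.2 := Primrec.snd
  have ht := prim_pt hx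
  have hb := prim_pb hx
  have hn := prim_pn hx
  have hT := prim_pT hx
  have hD := prim_pD hx
  have hS := prim_pS hx
  exact prim_pk (prim_u2 hb) hn hT (prim_case ht (prim_andN hn hD hX) hD)
    (prim_case ht (prim_addN hS (prim_u1 hb)) (prim_case ht (prim_addN hS (prim_u1 hb))
      (prim_case ht (prim_delN hS (prim_u1 hb)) hS)))

theorem prim_fin : Primrec fun x : ℕ × ℕ × ℕ => fin x.1 x.2.1 x.2.2 := by
  have hx : Primrec fun x : ℕ × ℕ × ℕ => x.1 := Primrec.fst
  have hX : Primrec fun x : ℕ × ℕ × ℕ => x.2.1 := Primrec.fst.comp Primrec.snd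
  have hY : Primrec fun x : ℕ × ℕ × ℕ => x.2.2 := Primrec.snd.comp Primrec.snd
  have ht := prim_pt hx
  have hb := prim_pb hx
  have hn := prim_pn hx
  have hT := prim_pT hx
  have hD := prim_pD hx
  have hS := prim_pS hx
  exact prim_case ht (prim_litN hn hT hD hS hb)
    (prim_case ht (prim_negN hn hX)
    (prim_case ht (prim_andN hn hX hY)
    (prim_case ht (prim_boxN hn hD hX)
    (prim_case ht (prim_entN hn hS hb)
    (prim_case ht (prim_impN hn hX hY)
    (prim_case ht (prim_impN hn (prim_boxN hn hD hX) hY) hY))))))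

theorem prim_c1 : Primrec c1 := by
  have ht := prim_pt (Primrec.id (α := ℕ))
  have h : ∀ k, Primrec fun x => (pt x == k) := fun k => prim_beqN ht (Primrec.const k)
  exact prim_not (prim_or (h 0) (prim_or (h 4) (prim_or (h 6) (h 7))))

theorem prim_c2 : Primrec c2 := by
  have ht := prim_pt (Primrec.id (α := ℕ))
  have h : ∀ k, Primrec fun x => (pt x == k) := fun k => prim_beqN ht (Primrec.const k)
  exact prim_or (h 2) (prim_or (h 5) (prim_or (h 6) (prim_or (h 7) (h 8))))

/-- a general recursion operator with at most two recursive calls -/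
def FG (C1 C2 : ℕ → Bool) (G1 : ℕ → ℕ) (G2 : ℕ → ℕ → ℕ) (F : ℕ → ℕ → ℕ → ℕ)
    (c : Code) (x : ℕ) : Part ℕ :=
  (cond (C1 x) (c.eval (G1 x)) (Part.some 0)).bind fun X =>
    (cond (C2 x) (c.eval (G2 x X)) (Part.some 0)).bind fun Y => Part.some (F x X Y)

theorem partrec_FG {C1 C2 : ℕ → Bool} {G1 : ℕ → ℕ} {G2 : ℕ → ℕ → ℕ} {F : ℕ → ℕ → ℕ → ℕ}
    (hC1 : Primrec C1) (hC2 : Primrec C2) (hG1 : Primrec G1) (hG2 : Primrec₂ G2)
    (hF : Primrec fun x : ℕ × ℕ × ℕ => F x.1 x.2.1 x.2.2) : Partrec₂ (FG C1 C2 G1 G2 F) := by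
  have hev : ∀ {β : Type} [Primcodable β] {c : β → Code} {f : β → ℕ},
      Computable c → Computable f → Partrec fun b => (c b).eval (f b) :=
    fun hc hf => Nat.Partrec.Code.eval_part.comp hc hf
  unfold FG
  refine Partrec.bind (f := fun a : Code × ℕ => cond (C1 a.2) (a.1.eval (G1 a.2)) (Part.some 0))
    (g := fun (a : Code × ℕ) X => (cond (C2 a.2) (a.1.eval (G2 a.2 X)) (Part.some 0)).bind
      fun Y => Part.some (F a.2 X Y)) ?_ ?_
  · refine Partrec.cond (hC1.to_comp.comp Computable.snd) ?_ (Computable.const 0)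
    exact hev Computable.fst (hG1.to_comp.comp Computable.snd)
  · refine Partrec.bind (f := fun a : (Code × ℕ) × ℕ =>
        cond (C2 a.1.2) (a.1.1.eval (G2 a.1.2 a.2)) (Part.some 0))
      (g := fun (a : (Code × ℕ) × ℕ) Y => Part.some (F a.1.2 a.2 Y)) ?_ ?_
    · refine Partrec.cond (hC2.to_comp.comp (Computable.snd.comp Computable.fst)) ?_
        (Computable.const 0)
      exact hev (Computable.fst.comp Computable.fst)
        (hG2.to_comp.comp (Computable.snd.comp Computable.fst) Computable.snd)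
    · have hp : Computable fun a : ((Code × ℕ) × ℕ) × ℕ => (a.1.1.2, a.1.2, a.2) :=
        (Computable.snd.comp (Computable.fst.comp Computable.fst)).pair
          ((Computable.snd.comp Computable.fst).pair Computable.snd)
      have h := hF.to_comp.comp hp
      exact h.partrec

theorem pk_simp (b t n T D S : ℕ) (ht : t < 9) :
    pt (pk (9 * b + t) n T D S) = t ∧ pb (pk (9 * b + t) n T D S) = b ∧
    pn (pk (9 * b + t) n T D S) = n ∧ pT (pk (9 * b + t) n T D S) = T ∧
    pD (pk (9 * b + t) n T D S) = D ∧ pS (pk (9 * b + t) n T D S) = S := by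
  simp only [pt, pb, pn, pD, pT, pS, pk, Nat.unpair_pair, and_self, and_true]
  omega

theorem exists_code : ∃ c : Code, ∀ (φ : Form) (n T D S : ℕ),
    c.eval (pk (code φ) n T D S) = Part.some (evs n T φ D S) := by
  obtain ⟨c, hc⟩ := Nat.Partrec.Code.fixed_point₂
    (partrec_FG prim_c1 prim_c2 prim_g1 prim_g2 prim_fin)
  refine ⟨c, fun φ n T => ?_⟩
  induction φ with
  | var p =>
    intro D S
    obtain ⟨h1, h2, h3, h4, h5, h6⟩ := pk_simp p 0 n T D S (by norm_num)
    rw [hc]
    simp only [Nat.add_zero] at h1 h2 h3 h4 h5 h6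
    simp [FG, c1, c2, fin, code, h1, h2, h3, h4, h5, h6, evs]
  | neg φ ih =>
    intro D S
    obtain ⟨h1, h2, h3, h4, h5, h6⟩ := pk_simp (code φ) 1 n T D S (by norm_num)
    rw [hc]
    simp [FG, c1, c2, fin, g1, code, h1, h2, h3, h4, h5, h6, evs, ih]
  | and φ ψ ih1 ih2 =>
    intro D S
    obtain ⟨h1, h2, h3, h4, h5, h6⟩ :=
      pk_simp (Nat.pair (code φ) (code ψ)) 2 n T D S (by norm_num)
    rw [hc]
    simp [FG, c1, c2, fin, g1, g2, code, h1, h2, h3, h4, h5, h6, evs, ih1, ih2]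
  | K φ ih =>
    intro D S
    obtain ⟨h1, h2, h3, h4, h5, h6⟩ := pk_simp (code φ) 3 n T D S (by norm_num)
    rw [hc]
    simp [FG, c1, c2, fin, g1, code, h1, h2, h3, h4, h5, h6, evs, ih]
  | E φ ih =>
    intro D S
    obtain ⟨h1, h2, h3, h4, h5, h6⟩ := pk_simp (code φ) 4 n T D S (by norm_num)
    rw [hc]
    simp [FG, c1, c2, fin, code, h1, h2, h3, h4, h5, h6, evs]
  | ann φ ψ ih1 ih2 =>
    intro D S
    obtain ⟨h1, h2, h3, h4, h5, h6⟩ :=
      pk_simp (Nat.pair (code φ) (code ψ)) 5 n T D S (by norm_num)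
    rw [hc]
    simp [FG, c1, c2, fin, g1, g2, code, h1, h2, h3, h4, h5, h6, evs, ih1, ih2]
  | add φ ψ ih1 ih2 =>
    intro D S
    obtain ⟨h1, h2, h3, h4, h5, h6⟩ :=
      pk_simp (Nat.pair (code φ) (code ψ)) 6 n T D S (by norm_num)
    rw [hc]
    simp [FG, c1, c2, fin, g2, code, h1, h2, h3, h4, h5, h6, evs, ih2]
  | del φ ψ ih1 ih2 =>
    intro D S
    obtain ⟨h1, h2, h3, h4, h5, h6⟩ :=
      pk_simp (Nat.pair (code φ) (code ψ)) 7 n T D S (by norm_num)
    rw [hc]
    simp [FG, c1, c2, fin, g2, code, h1, h2, h3, h4, h5, h6, evs, ih2]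
  | real φ ψ ih1 ih2 =>
    intro D S
    obtain ⟨h1, h2, h3, h4, h5, h6⟩ :=
      pk_simp (Nat.pair (code φ) (code ψ)) 8 n T D S (by norm_num)
    rw [hc]
    simp [FG, c1, c2, fin, g1, g2, code, h1, h2, h3, h4, h5, h6, evs, ih1, ih2]

/-! ### the recursion for substitution -/

/-- unary connectives -/
def un (x : ℕ) : Bool := (pt x == 1) || ((pt x == 3) || (pt x == 4))
def s1 (x : ℕ) : ℕ := Nat.pair (cond (un x) (pb x) (pb x).unpair.1) x.unpair.2
def s2 (x _X : ℕ) : ℕ := Nat.pair (pb x).unpair.2 x.unpair.2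
def d1 (x : ℕ) : Bool := !(pt x == 0)
def d2 (x : ℕ) : Bool := !((pt x == 0) || un x)
def fs (x X Y : ℕ) : ℕ :=
  cond (pt x == 0) (lkp x.unpair.2 (pb x))
    (cond (un x) (9 * X + pt x) (9 * Nat.pair X Y + pt x))

theorem prim_un : Primrec un := by
  have ht := prim_pt (Primrec.id (α := ℕ))
  have h : ∀ k, Primrec fun x => (pt x == k) := fun k => prim_beqN ht (Primrec.const k)
  exact prim_or (h 1) (prim_or (h 3) (h 4))

theorem prim_s1 : Primrec s1 := by
  have hx : Primrec fun x : ℕ => x := Primrec.id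
  exact prim_pair (Primrec.cond prim_un (prim_pb hx) (prim_u1 (prim_pb hx))) (prim_u2 hx)

theorem prim_s2 : Primrec₂ s2 := by
  have hx : Primrec fun x : ℕ × ℕ => x.1 := Primrec.fst
  exact prim_pair (prim_u2 (prim_pb hx)) (prim_u2 hx)

theorem prim_d1 : Primrec d1 :=
  prim_not (prim_beqN (prim_pt (Primrec.id (α := ℕ))) (Primrec.const 0))

theorem prim_d2 : Primrec d2 :=
  prim_not (prim_or (prim_beqN (prim_pt (Primrec.id (α := ℕ))) (Primrec.const 0)) prim_un)

theorem prim_fs : Primrec fun x : ℕ × ℕ × ℕ => fs x.1 x.2.1 x.2.2 := by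
  have hx : Primrec fun x : ℕ × ℕ × ℕ => x.1 := Primrec.fst
  have hX : Primrec fun x : ℕ × ℕ × ℕ => x.2.1 := Primrec.fst.comp Primrec.snd
  have hY : Primrec fun x : ℕ × ℕ × ℕ => x.2.2 := Primrec.snd.comp Primrec.snd
  have ht := prim_pt hx
  have hb := prim_pb hx
  have h9 : ∀ {f : ℕ × ℕ × ℕ → ℕ}, Primrec f → Primrec fun x => 9 * f x + pt x.1 :=
    fun hf => Primrec.nat_add.comp (Primrec.nat_mul.comp (Primrec.const 9) hf) ht
  exact prim_case ht (prim_lkp (prim_u2 hx) hb)
    (Primrec.cond (prim_un.comp hx) (h9 hX) (h9 (prim_pair hX hY)))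

theorem pr_simp (b t s : ℕ) (ht : t < 9) :
    pt (Nat.pair (9 * b + t) s) = t ∧ pb (Nat.pair (9 * b + t) s) = b ∧
    (Nat.pair (9 * b + t) s).unpair.2 = s := by
  simp only [pt, pb, Nat.unpair_pair, and_true]
  omega

theorem exists_scode : ∃ c : Code, ∀ (φ : Form) (s : ℕ),
    c.eval (Nat.pair (code φ) s) = Part.some (code (subst (sb s) φ)) := by
  obtain ⟨c, hc⟩ := Nat.Partrec.Code.fixed_point₂
    (partrec_FG prim_d1 prim_d2 prim_s1 prim_s2 prim_fs)
  refine ⟨c, fun φ s => ?_⟩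
  induction φ with
  | var p =>
    obtain ⟨h1, h2, h3⟩ := pr_simp p 0 s (by norm_num)
    rw [hc]
    simp only [Nat.add_zero] at h1 h2 h3
    simp [FG, d1, d2, fs, code, h1, h2, subst, sb, code_dec]
  | neg φ ih =>
    obtain ⟨h1, h2, h3⟩ := pr_simp (code φ) 1 s (by norm_num)
    rw [hc]
    simp [FG, d1, d2, fs, un, s1, s2, code, h1, h2, h3, subst, ih]
  | K φ ih =>
    obtain ⟨h1, h2, h3⟩ := pr_simp (code φ) 3 s (by norm_num)
    rw [hc]
    simp [FG, d1, d2, fs, un, s1, s2, code, h1, h2, h3, subst, ih]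
  | E φ ih =>
    obtain ⟨h1, h2, h3⟩ := pr_simp (code φ) 4 s (by norm_num)
    rw [hc]
    simp [FG, d1, d2, fs, un, s1, s2, code, h1, h2, h3, subst, ih]
  | and φ ψ ih1 ih2 =>
    obtain ⟨h1, h2, h3⟩ := pr_simp (Nat.pair (code φ) (code ψ)) 2 s (by norm_num)
    rw [hc]
    simp [FG, d1, d2, fs, un, s1, s2, code, h1, h2, h3, subst, ih1, ih2]
  | ann φ ψ ih1 ih2 =>
    obtain ⟨h1, h2, h3⟩ := pr_simp (Nat.pair (code φ) (code ψ)) 5 s (by norm_num)
    rw [hc]
    simp [FG, d1, d2, fs, un, s1, s2, code, h1, h2, h3, subst, ih1, ih2]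
  | add φ ψ ih1 ih2 =>
    obtain ⟨h1, h2, h3⟩ := pr_simp (Nat.pair (code φ) (code ψ)) 6 s (by norm_num)
    rw [hc]
    simp [FG, d1, d2, fs, un, s1, s2, code, h1, h2, h3, subst, ih1, ih2]
  | del φ ψ ih1 ih2 =>
    obtain ⟨h1, h2, h3⟩ := pr_simp (Nat.pair (code φ) (code ψ)) 7 s (by norm_num)
    rw [hc]
    simp [FG, d1, d2, fs, un, s1, s2, code, h1, h2, h3, subst, ih1, ih2]
  | real φ ψ ih1 ih2 =>
    obtain ⟨h1, h2, h3⟩ := pr_simp (Nat.pair (code φ) (code ψ)) 8 s (by norm_num)
    rw [hc]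
    simp [FG, d1, d2, fs, un, s1, s2, code, h1, h2, h3, subst, ih1, ih2]

/-! ### the decision procedure -/

/-- total evaluator on packed arguments -/
noncomputable def GG (x : ℕ) : ℕ := evs (pn x) (pT x) (dec x.unpair.1) (pD x) (pS x)

theorem comp_GG : Computable GG := by
  obtain ⟨c, hc⟩ := exists_code
  have h : Partrec fun x : ℕ => c.eval x :=
    Nat.Partrec.Code.eval_part.comp (Computable.const c) Computable.id
  refine h.of_eq fun x => ?_
  have h1 := hc (dec x.unpair.1) (pn x) (pT x) (pD x) (pS x)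
  rw [code_dec] at h1
  have h2 : pk x.unpair.1 (pn x) (pT x) (pD x) (pS x) = x := by
    simp only [pk, pn, pD, pT, pS, Nat.pair_unpair]
  rw [h2] at h1
  exact h1

/-- numerical substitution -/
noncomputable def SG (x : ℕ) : ℕ := code (subst (sb x.unpair.2) (dec x.unpair.1))

theorem comp_SG : Computable SG := by
  obtain ⟨c, hc⟩ := exists_scode
  have h : Partrec fun x : ℕ => c.eval x :=
    Nat.Partrec.Code.eval_part.comp (Computable.const c) Computable.id
  refine h.of_eq fun x => ?_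
  have h1 := hc (dec x.unpair.1) x.unpair.2
  rw [code_dec, Nat.pair_unpair] at h1
  exact h1

/-- the test applied to each candidate -/
noncomputable def tst (a z : ℕ) : Bool :=
  !(decide (z.unpair.2.unpair.2.unpair.2.unpair.2 < z.unpair.2.unpair.1) &&
      !(GG (pk (SG (Nat.pair a z.unpair.1)) z.unpair.2.unpair.1 z.unpair.2.unpair.2.unpair.1
        (fullN z.unpair.2.unpair.1) z.unpair.2.unpair.2.unpair.2.unpair.1)).testBit
          z.unpair.2.unpair.2.unpair.2.unpair.2)

theorem comp_tst : Computable₂ tst := by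
  have hz : Primrec fun x : ℕ × ℕ => x.2 := Primrec.snd
  have h1 : Primrec fun x : ℕ × ℕ => x.2.unpair.1 := prim_u1 hz
  have h2 : Primrec fun x : ℕ × ℕ => x.2.unpair.2.unpair.1 := prim_u1 (prim_u2 hz)
  have h3 : Primrec fun x : ℕ × ℕ => x.2.unpair.2.unpair.2.unpair.1 :=
    prim_u1 (prim_u2 (prim_u2 hz))
  have h4 : Primrec fun x : ℕ × ℕ => x.2.unpair.2.unpair.2.unpair.2.unpair.1 :=
    prim_u1 (prim_u2 (prim_u2 (prim_u2 hz)))
  have h5 : Primrec fun x : ℕ × ℕ => x.2.unpair.2.unpair.2.unpair.2.unpair.2 :=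
    prim_u2 (prim_u2 (prim_u2 (prim_u2 hz)))
  have hp0 : Primrec fun x : ℕ × ℕ => Nat.pair x.1 x.2.unpair.1 := prim_pair Primrec.fst h1
  have hs : Computable fun x : ℕ × ℕ => SG (Nat.pair x.1 x.2.unpair.1) :=
    comp_SG.comp hp0.to_comp
  have hr : Primrec fun x : ℕ × ℕ => Nat.pair x.2.unpair.2.unpair.1
      (Nat.pair x.2.unpair.2.unpair.2.unpair.1 (Nat.pair (fullN x.2.unpair.2.unpair.1)
        x.2.unpair.2.unpair.2.unpair.2.unpair.1)) :=
    prim_pair h2 (prim_pair h3 (prim_pair (prim_fullN h2) h4))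
  have hpk : Computable fun x : ℕ × ℕ => pk (SG (Nat.pair x.1 x.2.unpair.1))
      x.2.unpair.2.unpair.1 x.2.unpair.2.unpair.2.unpair.1 (fullN x.2.unpair.2.unpair.1)
        x.2.unpair.2.unpair.2.unpair.2.unpair.1 := by
    exact (Primrec₂.natPair.to_comp).comp hs hr.to_comp
  have hG := comp_GG.comp hpk
  have ht := prim_tb.to_comp.comp hG h5.to_comp
  have hn := Primrec.not.to_comp.comp ht
  have hl := (prim_lt h5 h2).to_comp
  have ha := Primrec.and.to_comp.comp hl hn
  have hc := Primrec.not.to_comp.comp ha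
  exact hc

theorem prim_BB : Primrec BB := by
  have h : Primrec fun n : ℕ => Nat.rec (motive := fun _ => ℕ) 0
      (fun _ IH => 9 * Nat.pair (IH + 1) (IH + 1) + 8) n := by
    refine Primrec.nat_rec' (h := fun _ x => 9 * Nat.pair (x.2 + 1) (x.2 + 1) + 8) Primrec.id
      (Primrec.const 0) ?_
    have h1 : Primrec fun x : ℕ × (ℕ × ℕ) => x.2.2 + 1 :=
      Primrec.succ.comp (Primrec.snd.comp Primrec.snd)
    exact (Primrec.nat_add.comp (Primrec.nat_mul.comp (Primrec.const 9) (prim_pair h1 h1))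
      (Primrec.const 8)).to₂
  refine h.of_eq fun n => ?_
  induction n with
  | zero => rfl
  | succ k ih => simp only [BB, ← ih]

theorem prim_zb : Primrec zb := by
  have hid : Primrec fun a : ℕ => a := Primrec.id
  have hs : Primrec fun a : ℕ => a + 1 := Primrec.succ
  have hB : Primrec fun a : ℕ => BB (a + 1) := prim_BB.comp hs
  have hB1 : Primrec fun a : ℕ => BB (a + 1) + 1 := Primrec.succ.comp hB
  have hN : Primrec fun a : ℕ => 2 ^ (BB (a + 1) + 1) := prim_p2 hB1
  have hbig : Primrec fun a : ℕ => big (BB (a + 1)) (2 ^ (BB (a + 1) + 1)) := by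
    unfold big
    exact prim_pair hB1 (prim_pair (prim_p2 hN) (prim_pair (prim_p2 hB) hN))
  unfold zb
  exact Primrec.succ.comp (prim_pair (prim_p2 (prim_pair hs hB1)) (prim_pair hN
    (prim_pair (prim_p2 hbig) (prim_pair hN hN))))

theorem main : ComputablePred fun n : ℕ => ∃ φ : Form, code φ = n ∧ SchemValid.{u} φ := by
  rw [ComputablePred.computable_iff]
  refine ⟨fun a => ball (tst a) (zb a), comp_ball comp_tst prim_zb.to_comp, ?_⟩
  funext a
  apply propext
  have h0 : (∃ φ : Form, code φ = a ∧ SchemValid.{u} φ) ↔ SchemValid.{u} (dec a) := by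
    constructor
    · rintro ⟨φ, rfl, h⟩
      rwa [dec_code]
    · intro h
      exact ⟨dec a, code_dec a, h⟩
  rw [h0, schem_num, code_dec, ball_iff]
  refine forall_congr' fun z => forall_congr' fun _ => ?_
  have h1 : GG (pk (SG (Nat.pair a z.unpair.1)) z.unpair.2.unpair.1 z.unpair.2.unpair.2.unpair.1
        (fullN z.unpair.2.unpair.1) z.unpair.2.unpair.2.unpair.2.unpair.1) =
      evs z.unpair.2.unpair.1 z.unpair.2.unpair.2.unpair.1 (subst (sb z.unpair.1) (dec a))
        (fullN z.unpair.2.unpair.1) z.unpair.2.unpair.2.unpair.2.unpair.1 := by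
    simp only [GG, SG, pk, pn, pD, pT, pS, Nat.unpair_pair, dec_code]
  rw [tst, h1]
  generalize (evs z.unpair.2.unpair.1 z.unpair.2.unpair.2.unpair.1
    (subst (sb z.unpair.1) (dec a)) (fullN z.unpair.2.unpair.1)
      z.unpair.2.unpair.2.unpair.2.unpair.1).testBit z.unpair.2.unpair.2.unpair.2.unpair.2 = C
  by_cases hlt : z.unpair.2.unpair.2.unpair.2.unpair.2 < z.unpair.2.unpair.1
  · cases C <;> simp [hlt]
  · cases C <;> simp [hlt]

end R624EN
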