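import Mathlib

/-!
Definitions for MP_a83194_lc: the dynamic logic of entertainment, its models, truth, validity,
substitution, schematic validity, and a bijective numbering of formulas.
-/

namespace R624EN

universe u

/-- Formulas of the dynamic logic of entertainment. -/
inductive Form : Type
  /-- proposition letter -/
  | var : ℕ → Form
  | neg : Form → Form
  | and : Form → Form → Form
  /-- implicit knowledge -/
  | K : Form → Form
  /-- the agent entertains -/
  | E : Form → Form
  /-- `[!φ]ψ` -/
  | ann : Form → Form → Form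
  /-- `[+φ]ψ` -/
  | add : Form → Form → Form
  /-- `[-φ]ψ` -/
  | del : Form → Form → Form
  /-- `[#φ]ψ` -/
  | real : Form → Form → Form

/-- `truth e V φ D A w`: truth of `φ` at `w` in the model whose worlds are the elements of `D`
(the worlds that survived the observations made so far), with accessibility relation `e`,
valuation `V` and awareness sets `A`. -/
def truth {W : Type u} (e : W → W → Prop) (V : ℕ → W → Prop) :
    Form → Set W → (W → Set Form) → W → Prop
  | .var p, _, _, w => V p w
  | .neg φ, D, A, w => ¬ truth e V φ D A w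
  | .and φ ψ, D, A, w => truth e V φ D A w ∧ truth e V ψ D A w
  | .K φ, D, A, w => ∀ v ∈ D, e w v → truth e V φ D A v
  | .E φ, _, A, w => φ ∈ A w
  | .ann φ ψ, D, A, w => truth e V φ D A w → truth e V ψ {v | v ∈ D ∧ truth e V φ D A v} A w
  | .add φ ψ, D, A, w => truth e V ψ D (fun v => A v ∪ {φ}) w
  | .del φ ψ, D, A, w => truth e V ψ D (fun v => A v \ {φ}) w
  | .real φ ψ, D, A, w => (∀ v ∈ D, e w v → truth e V φ D A v) →
      truth e V ψ D (fun v => A v ∪ {φ}) w

/-- Models: an epistemic model with awareness sets, constant on the classes of the relation. -/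
structure Model where
  /-- worlds -/
  W : Type u
  /-- the epistemic equivalence relation -/
  e : W → W → Prop
  /-- the valuation -/
  V : ℕ → W → Prop
  /-- the awareness sets -/
  A : W → Set Form
  he : Equivalence e
  hA : ∀ v w, e v w → A v = A w

/-- Truth at every world of every model. -/
def Valid (φ : Form) : Prop :=
  ∀ (M : Model.{u}) (w : M.W), truth M.e M.V φ Set.univ M.A w

/-- Substitution of formulas for proposition letters. -/
def subst (σ : ℕ → Form) : Form → Form
  | .var p => σ p
  | .neg φ => .neg (subst σ φ)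
  | .and φ ψ => .and (subst σ φ) (subst σ ψ)
  | .K φ => .K (subst σ φ)
  | .E φ => .E (subst σ φ)
  | .ann φ ψ => .ann (subst σ φ) (subst σ ψ)
  | .add φ ψ => .add (subst σ φ) (subst σ ψ)
  | .del φ ψ => .del (subst σ φ) (subst σ ψ)
  | .real φ ψ => .real (subst σ φ) (subst σ ψ)

/-- Schematic validity: all substitution instances are valid. -/
def SchemValid (φ : Form) : Prop :=
  ∀ σ : ℕ → Form, Valid.{u} (subst σ φ)

/-- The numbering of formulas. -/
def code : Form → ℕ
  | .var p => 9 * p
  | .neg φ => 9 * code φ + 1
  | .and φ ψ => 9 * Nat.pair (code φ) (code ψ) + 2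
  | .K φ => 9 * code φ + 3
  | .E φ => 9 * code φ + 4
  | .ann φ ψ => 9 * Nat.pair (code φ) (code ψ) + 5
  | .add φ ψ => 9 * Nat.pair (code φ) (code ψ) + 6
  | .del φ ψ => 9 * Nat.pair (code φ) (code ψ) + 7
  | .real φ ψ => 9 * Nat.pair (code φ) (code ψ) + 8

end R624EN
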