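import Pool.Agent.R624.EN.Fmp
import Pool.Agent.R624.DI.Main

/-!
A numerical evaluator for the generalised semantics on `Fin n`.
-/

namespace R624EN

open R624DI (ball mk ball_iff mk_lt testBit_mk mk_congr pair_lt_pair pair_le_pair)

universe u

/-- evaluator clauses -/
def litN (n T D S p : ℕ) : ℕ :=
  mk (fun w => T.testBit (Nat.pair p (Nat.pair D (Nat.pair (mk (fun i => S.testBit i) p) w)))) n
def negN (n X : ℕ) : ℕ := mk (fun w => !X.testBit w) n
def andN (n X Y : ℕ) : ℕ := mk (fun w => X.testBit w && Y.testBit w) n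
def boxN (n D X : ℕ) : ℕ := mk (fun _ => ball (fun v => !D.testBit v || X.testBit v) n) n
def entN (n S b : ℕ) : ℕ := mk (fun _ => S.testBit b) n
def impN (n X Y : ℕ) : ℕ := mk (fun w => !X.testBit w || Y.testBit w) n
def addN (S b : ℕ) : ℕ := mk (fun i => S.testBit i || (i == b)) (S + b + 1)
def delN (S b : ℕ) : ℕ := mk (fun i => S.testBit i && !(i == b)) S

/-- evaluator: the truth set of a formula -/
def evs (n T : ℕ) : Form → ℕ → ℕ → ℕ
  | .var p, D, S => litN n T D S p
  | .neg φ, D, S => negN n (evs n T φ D S)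
  | .and φ ψ, D, S => andN n (evs n T φ D S) (evs n T ψ D S)
  | .K φ, D, S => boxN n D (evs n T φ D S)
  | .E φ, _, S => entN n S (code φ)
  | .ann φ ψ, D, S => impN n (evs n T φ D S) (evs n T ψ (andN n D (evs n T φ D S)) S)
  | .add φ ψ, D, S => evs n T ψ D (addN S (code φ))
  | .del φ ψ, D, S => evs n T ψ D (delN S (code φ))
  | .real φ ψ, D, S => impN n (boxN n D (evs n T φ D S)) (evs n T ψ D (addN S (code φ)))

/-- decoding of sets of worlds -/
def dD (n D : ℕ) : Set (Fin n) := {v | D.testBit v = true}
/-- decoding of sets of formulas -/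
def dS (S : ℕ) : Set Form := {ψ | S.testBit (code ψ) = true}

open Classical in
/-- encoding of sets of worlds -/
noncomputable def eD {n : ℕ} (D : Set (Fin n)) : ℕ :=
  mk (fun v => decide (∃ h : v < n, (⟨v, h⟩ : Fin n) ∈ D)) n
open Classical in
/-- encoding of sets of formulas -/
noncomputable def eS (p : ℕ) (S : Set Form) : ℕ :=
  mk (fun i => decide (∃ ψ, code ψ = i ∧ ψ ∈ S)) p

theorem dD_eD {n : ℕ} (D : Set (Fin n)) : dD n (eD D) = D := by
  ext v
  simp [dD, eD, testBit_mk]

open Classical in
theorem eD_dD_mk (n : ℕ) (q : ℕ → Bool) : eD (dD n (mk q n)) = mk q n := by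
  apply mk_congr
  intro i hi
  rw [Bool.eq_iff_iff, decide_eq_true_iff]
  simp only [dD, Set.mem_ofPred_eq, testBit_mk, hi, decide_true, Bool.true_and, exists_true_left]

open Classical in
theorem eS_dS (p S : ℕ) : eS p (dS S) = mk (fun i => S.testBit i) p := by
  apply mk_congr
  intro i hi
  rw [Bool.eq_iff_iff, decide_eq_true_iff]
  simp only [dS, Set.mem_ofPred_eq]
  constructor
  · rintro ⟨ψ, rfl, h⟩
    exact h
  · intro h
    obtain ⟨ψ, rfl⟩ := code_surj i
    exact ⟨ψ, rfl, h⟩

theorem dS_eS (p : ℕ) (S : Set Form) : dS (eS p S) = {ψ | code ψ < p ∧ ψ ∈ S} := by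
  ext ψ
  simp only [dS, eS, Set.mem_ofPred_eq, testBit_mk, Bool.and_eq_true, decide_eq_true_iff]
  refine and_congr_right fun _ => ?_
  constructor
  · rintro ⟨χ, h1, h2⟩
    rwa [← code_inj h1]
  · intro h
    exact ⟨ψ, rfl, h⟩

theorem eD_lt {n : ℕ} (D : Set (Fin n)) : eD D < 2 ^ n := mk_lt _ _
theorem eS_lt (p : ℕ) (S : Set Form) : eS p S < 2 ^ p := mk_lt _ _

/-- the generalised valuation coded by `T` -/
noncomputable def VD (n T : ℕ) : ℕ → Set (Fin n) → Set Form → Fin n → Prop :=
  fun p D S w => T.testBit (Nat.pair p (Nat.pair (eD D) (Nat.pair (eS p S) w))) = true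

theorem VD_dep (n T : ℕ) : Dep (VD n T) := by
  intro p D S S' w h
  have : eS p S = eS p S' := by
    apply mk_congr
    intro i hi
    rw [decide_eq_decide]
    constructor
    · rintro ⟨ψ, rfl, h1⟩
      exact ⟨ψ, rfl, (h ψ hi).1 h1⟩
    · rintro ⟨ψ, rfl, h1⟩
      exact ⟨ψ, rfl, (h ψ hi).2 h1⟩
  simp only [VD, this]

theorem dS_add (S : ℕ) (φ : Form) : dS (addN S (code φ)) = dS S ∪ {φ} := by
  ext ψ
  simp only [dS, addN, Set.mem_union, Set.mem_singleton_iff, Set.mem_ofPred_eq, testBit_mk,
    Bool.and_eq_true, decide_eq_true_iff, Bool.or_eq_true, beq_iff_eq, code_inj.eq_iff]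
  constructor
  · exact fun h => h.2
  · intro h
    refine ⟨?_, h⟩
    rcases h with h | rfl
    · by_contra h2
      have h3 : S < 2 ^ code ψ := by
        have h4 : S ≤ code ψ := by omega
        exact lt_of_le_of_lt h4 Nat.lt_two_pow_self
      rw [Nat.testBit_lt_two_pow h3] at h
      cases h
    · omega

theorem dS_del (S : ℕ) (φ : Form) : dS (delN S (code φ)) = dS S \ {φ} := by
  ext ψ
  simp only [dS, delN, Set.mem_sdiff, Set.mem_singleton_iff, Set.mem_ofPred_eq, testBit_mk,
    Bool.and_eq_true, decide_eq_true_iff, Bool.not_eq_true', beq_eq_false_iff_ne, ne_eq,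
    code_inj.eq_iff]
  constructor
  · exact fun h => h.2
  · intro h
    refine ⟨?_, h⟩
    by_contra h2
    have h3 : S < 2 ^ code ψ := by
      have h4 : S ≤ code ψ := by omega
      exact lt_of_le_of_lt h4 Nat.lt_two_pow_self
    rw [Nat.testBit_lt_two_pow h3] at h
    cases h.1

theorem sem_box {n D X : ℕ} {P : Fin n → Prop} (h : ∀ v : Fin n, X.testBit v = true ↔ P v) :
    ball (fun v => !D.testBit v || X.testBit v) n = true ↔ ∀ v ∈ dD n D, P v := by
  simp only [ball_iff, Bool.or_eq_true, Bool.not_eq_true', dD, Set.mem_ofPred_eq]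
  constructor
  · intro h1 v hv
    rw [← h v]
    rcases h1 v v.2 with h2 | h2
    · rw [hv] at h2; cases h2
    · exact h2
  · intro h1 v hv
    by_cases h2 : D.testBit v = true
    · exact Or.inr ((h ⟨v, hv⟩).2 (h1 ⟨v, hv⟩ h2))
    · exact Or.inl (by simpa using h2)

theorem sem (n T : ℕ) (φ : Form) : ∀ D S, eD (dD n D) = D → ∀ w : Fin n,
    ((evs n T φ D S).testBit w = true ↔ truthG (VD n T) φ (dD n D) (dS S) w) := by
  induction φ with
  | var p =>
    intro D S hD w
    simp only [evs, litN, testBit_mk, truthG, VD, hD, eS_dS, w.2, decide_true, Bool.true_and]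
  | neg φ ih =>
    intro D S hD w
    simp only [evs, negN, testBit_mk, truthG, w.2, decide_true, Bool.true_and, ← ih D S hD w]
    simp
  | and φ ψ ih1 ih2 =>
    intro D S hD w
    simp only [evs, andN, testBit_mk, truthG, w.2, decide_true, Bool.true_and,
      ← ih1 D S hD w, ← ih2 D S hD w, Bool.and_eq_true]
  | K φ ih =>
    intro D S hD w
    simp only [evs, boxN, testBit_mk, truthG, w.2, decide_true, Bool.true_and]
    exact sem_box (ih D S hD)
  | E φ ih =>
    intro D S hD w
    simp only [evs, entN, testBit_mk, truthG, w.2, decide_true, Bool.true_and, dS,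
      Set.mem_ofPred_eq]
  | ann φ ψ ih1 ih2 =>
    intro D S hD w
    have h1 : dD n (andN n D (evs n T φ D S)) =
        {v | v ∈ dD n D ∧ truthG (VD n T) φ (dD n D) (dS S) v} := by
      ext v
      have h0 : (andN n D (evs n T φ D S)).testBit v =
          (D.testBit v && (evs n T φ D S).testBit v) := by
        simp only [andN, testBit_mk, v.2, decide_true, Bool.true_and]
      change (andN n D (evs n T φ D S)).testBit v = true ↔
        D.testBit v = true ∧ truthG (VD n T) φ (dD n D) (dS S) v
      rw [h0, Bool.and_eq_true, ih1 D S hD v]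
    have h2 := ih2 (andN n D (evs n T φ D S)) S (eD_dD_mk _ _) w
    rw [h1] at h2
    simp only [evs, impN, testBit_mk, truthG, w.2, decide_true, Bool.true_and, Bool.or_eq_true,
      Bool.not_eq_true']
    rw [h2, ← ih1 D S hD w]
    cases (evs n T φ D S).testBit w <;> simp
  | add φ ψ ih1 ih2 =>
    intro D S hD w
    simp only [evs, truthG]
    rw [ih2 D _ hD w, dS_add]
  | del φ ψ ih1 ih2 =>
    intro D S hD w
    simp only [evs, truthG]
    rw [ih2 D _ hD w, dS_del]
  | real φ ψ ih1 ih2 =>
    intro D S hD w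
    have h1 := sem_box (D := D) (ih1 D S hD)
    simp only [evs, impN, boxN, testBit_mk, truthG, w.2, decide_true, Bool.true_and,
      Bool.or_eq_true, Bool.not_eq_true']
    rw [ih2 D _ hD w, dS_add, ← h1]
    cases ball (fun v => !D.testBit v || (evs n T φ D S).testBit v) n <;> simp

theorem le_code_pair (a b : ℕ) (t : ℕ) : a ≤ 9 * Nat.pair a b + t ∧ b ≤ 9 * Nat.pair a b + t := by
  have h1 := Nat.left_le_pair a b
  have h2 := Nat.right_le_pair a b
  omega

/-- Only letters up to the code matter. -/
theorem truthG_congr {W : Type u} {V V' : ℕ → Set W → Set Form → W → Prop} (φ : Form) :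
    ∀ a, code φ ≤ a → (∀ p ≤ a, V p = V' p) → truthG V φ = truthG V' φ := by
  induction φ with
  | var p =>
    intro a ha h
    simp only [code] at ha
    funext D S w
    simp only [truthG]
    rw [h p (by omega)]
  | neg φ ih =>
    intro a ha h; simp only [code] at ha
    funext D S w; simp only [truthG, ih a (by omega) h]
  | and φ ψ ih1 ih2 =>
    intro a ha h; simp only [code] at ha
    have h1 := le_code_pair (code φ) (code ψ) 2
    funext D S w; simp only [truthG, ih1 a (by omega) h, ih2 a (by omega) h]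
  | K φ ih =>
    intro a ha h; simp only [code] at ha
    funext D S w; simp only [truthG, ih a (by omega) h]
  | E φ ih => intro a ha h; funext D S w; simp only [truthG]
  | ann φ ψ ih1 ih2 =>
    intro a ha h; simp only [code] at ha
    have h1 := le_code_pair (code φ) (code ψ) 5
    funext D S w; simp only [truthG, ih1 a (by omega) h, ih2 a (by omega) h]
  | add φ ψ ih1 ih2 =>
    intro a ha h; simp only [code] at ha
    have h1 := le_code_pair (code φ) (code ψ) 6
    funext D S w; simp only [truthG, ih2 a (by omega) h]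
  | del φ ψ ih1 ih2 =>
    intro a ha h; simp only [code] at ha
    have h1 := le_code_pair (code φ) (code ψ) 7
    funext D S w; simp only [truthG, ih2 a (by omega) h]
  | real φ ψ ih1 ih2 =>
    intro a ha h; simp only [code] at ha
    have h1 := le_code_pair (code φ) (code ψ) 8
    funext D S w; simp only [truthG, ih1 a (by omega) h, ih2 a (by omega) h]

/-- Only entertained formulas up to the code matter. -/
theorem truthG_congrS {W : Type u} {V : ℕ → Set W → Set Form → W → Prop} (hV : Dep V)
    (φ : Form) : ∀ a, code φ ≤ a → ∀ (D : Set W) (S S' : Set Form) (w : W),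
      (∀ ψ, code ψ ≤ a → (ψ ∈ S ↔ ψ ∈ S')) → (truthG V φ D S w ↔ truthG V φ D S' w) := by
  induction φ with
  | var p =>
    intro a ha D S S' w h
    simp only [code] at ha
    exact hV p D S S' w fun ψ hψ => h ψ (by omega)
  | neg φ ih =>
    intro a ha D S S' w h
    simp only [code] at ha
    simp only [truthG]
    rw [ih a (by omega) D S S' w h]
  | and φ ψ ih1 ih2 =>
    intro a ha D S S' w h
    simp only [code] at ha
    have h1 := le_code_pair (code φ) (code ψ) 2
    simp only [truthG]
    rw [ih1 a (by omega) D S S' w h, ih2 a (by omega) D S S' w h]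
  | K φ ih =>
    intro a ha D S S' w h
    simp only [code] at ha
    simp only [truthG]
    exact forall_congr' fun v => forall_congr' fun _ => ih a (by omega) D S S' v h
  | E φ ih =>
    intro a ha D S S' w h
    simp only [code] at ha
    exact h φ (by omega)
  | ann φ ψ ih1 ih2 =>
    intro a ha D S S' w h
    simp only [code] at ha
    have h1 := le_code_pair (code φ) (code ψ) 5
    simp only [truthG]
    have h2 : ∀ v, truthG V φ D S v ↔ truthG V φ D S' v :=
      fun v => ih1 a (by omega) D S S' v h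
    simp only [h2]
    rw [ih2 a (by omega) _ S S' w h]
  | add φ ψ ih1 ih2 =>
    intro a ha D S S' w h
    simp only [code] at ha
    have h1 := le_code_pair (code φ) (code ψ) 6
    simp only [truthG]
    refine ih2 a (by omega) D _ _ w fun χ hχ => ?_
    simp only [Set.mem_union, h χ hχ]
  | del φ ψ ih1 ih2 =>
    intro a ha D S S' w h
    simp only [code] at ha
    have h1 := le_code_pair (code φ) (code ψ) 7
    simp only [truthG]
    refine ih2 a (by omega) D _ _ w fun χ hχ => ?_
    simp only [Set.mem_sdiff, h χ hχ]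
  | real φ ψ ih1 ih2 =>
    intro a ha D S S' w h
    simp only [code] at ha
    have h1 := le_code_pair (code φ) (code ψ) 8
    simp only [truthG]
    have h2 : ∀ v, truthG V φ D S v ↔ truthG V φ D S' v :=
      fun v => ih1 a (by omega) D S S' v h
    simp only [h2]
    refine imp_congr Iff.rfl (ih2 a (by omega) D _ _ w fun χ hχ => ?_)
    simp only [Set.mem_union, h χ hχ]

/-- bound for the codes of the relevant facts -/
def big (a n : ℕ) : ℕ := Nat.pair (a + 1) (Nat.pair (2 ^ n) (Nat.pair (2 ^ a) n))

open Classical in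
theorem exists_T {n : ℕ} (a : ℕ) {V : ℕ → Set (Fin n) → Set Form → Fin n → Prop} (hV : Dep V) :
    ∃ T < 2 ^ big a n, ∀ p ≤ a, VD n T p = V p := by
  refine ⟨mk (fun z => decide (∃ hw : z.unpair.2.unpair.2.unpair.2 < n,
    V z.unpair.1 (dD n z.unpair.2.unpair.1) (dS z.unpair.2.unpair.2.unpair.1) ⟨_, hw⟩))
    (big a n), mk_lt _ _, ?_⟩
  intro p hp
  funext D S w
  have h0 : eS p S < 2 ^ a := (eS_lt p S).trans_le (Nat.pow_le_pow_right (by norm_num) hp)
  have h1 : Nat.pair p (Nat.pair (eD D) (Nat.pair (eS p S) w)) < big a n :=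
    pair_lt_pair (Nat.lt_succ_of_le hp) (pair_lt_pair (eD_lt D) (pair_lt_pair h0 w.2))
  simp only [VD, testBit_mk, h1, decide_true, Bool.true_and, Nat.unpair_pair, decide_eq_true_iff,
    dD_eD, dS_eS, Fin.is_lt, Fin.eta, exists_true_left]
  apply propext
  exact hV p D _ _ w fun ψ hψ => by simp only [Set.mem_ofPred_eq, hψ, true_and]

/-- the formula with a given number -/
noncomputable def dec : ℕ → Form := Function.surjInv code_surj

theorem code_dec (a : ℕ) : code (dec a) = a := Function.surjInv_eq code_surj a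

theorem dec_code (φ : Form) : dec (code φ) = φ := code_inj (code_dec _)

/-- table lookup -/
def lkp (t p : ℕ) : ℕ := mk (fun i => t.testBit (Nat.pair p i)) t

/-- the substitution given by a table -/
noncomputable def sb (t : ℕ) : ℕ → Form := fun p => dec (lkp t p)

theorem exists_t (a B : ℕ) (τ : ℕ → Form) (h : ∀ p, code (τ p) ≤ B) :
    ∃ t < 2 ^ Nat.pair (a + 1) (B + 1), ∀ p ≤ a, sb t p = τ p := by
  refine ⟨mk (fun z => (code (τ z.unpair.1)).testBit z.unpair.2) (Nat.pair (a + 1) (B + 1)),
    mk_lt _ _, ?_⟩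
  intro p hp
  set t := mk (fun z => (code (τ z.unpair.1)).testBit z.unpair.2) (Nat.pair (a + 1) (B + 1))
    with ht
  have h1 : ∀ i, t.testBit (Nat.pair p i) = (code (τ p)).testBit i := by
    intro i
    rw [ht, testBit_mk]
    simp only [Nat.unpair_pair]
    by_cases hi : i < B + 1
    · simp [pair_lt_pair (Nat.lt_succ_of_le hp) hi]
    · have h3 : code (τ p) < 2 ^ i := by
        have h4 : code (τ p) ≤ i := (h p).trans (by omega)
        exact lt_of_le_of_lt h4 Nat.lt_two_pow_self
      rw [Nat.testBit_lt_two_pow h3, Bool.and_false]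
  have h2 : lkp t p = code (τ p) := by
    apply Nat.eq_of_testBit_eq
    intro i
    rw [lkp, testBit_mk, h1]
    by_cases hi : i < t
    · simp [hi]
    · by_cases hb : (code (τ p)).testBit i = true
      · exfalso
        rw [← h1] at hb
        have h3 : t < 2 ^ Nat.pair p i := by
          have h4 : t ≤ Nat.pair p i := (by omega : t ≤ i).trans (Nat.right_le_pair p i)
          exact lt_of_le_of_lt h4 Nat.lt_two_pow_self
        rw [Nat.testBit_lt_two_pow h3] at hb
        cases hb
      · simp only [Bool.not_eq_true] at hb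
        rw [hb, Bool.and_false]
  rw [sb, h2, dec_code]

theorem sz_le (φ : Form) : sz φ ≤ code φ + 1 := by
  induction φ with
  | var p => simp [sz]
  | neg φ ih => simp only [sz, code]; omega
  | K φ ih => simp only [sz, code]; omega
  | E φ ih => simp only [sz, code]; omega
  | and φ ψ ih1 ih2 =>
    simp only [sz, code]; have := Nat.add_le_pair (code φ) (code ψ); omega
  | ann φ ψ ih1 ih2 =>
    simp only [sz, code]; have := Nat.add_le_pair (code φ) (code ψ); omega
  | add φ ψ ih1 ih2 =>
    simp only [sz, code]; have := Nat.add_le_pair (code φ) (code ψ); omega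
  | del φ ψ ih1 ih2 =>
    simp only [sz, code]; have := Nat.add_le_pair (code φ) (code ψ); omega
  | real φ ψ ih1 ih2 =>
    simp only [sz, code]; have := Nat.add_le_pair (code φ) (code ψ); omega

/-- search bound -/
def zb (a : ℕ) : ℕ :=
  Nat.pair (2 ^ Nat.pair (a + 1) (BB (a + 1) + 1)) (Nat.pair (2 ^ (BB (a + 1) + 1))
    (Nat.pair (2 ^ big (BB (a + 1)) (2 ^ (BB (a + 1) + 1)))
      (Nat.pair (2 ^ (BB (a + 1) + 1)) (2 ^ (BB (a + 1) + 1))))) + 1

/-- all worlds -/
def fullN (n : ℕ) : ℕ := mk (fun _ => true) n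

theorem dD_full (n : ℕ) : dD n (fullN n) = Set.univ := by
  ext v
  simp [dD, fullN, testBit_mk]

theorem not_schem {φ : Form} (τ : ℕ → Form) {n : ℕ}
    {V : ℕ → Set (Fin n) → Set Form → Fin n → Prop} (hV : Dep V) {S : Set Form} {w : Fin n}
    (h2 : ¬ truthG V (subst τ φ) Set.univ S w) : ¬ SchemValid.{u} φ := by
  obtain ⟨V', hV', w', h3⟩ := transfer (W' := ULift.{u} (Fin n)) Equiv.ulift.symm hV h2
  exact realise hV' h3

/-- the numerical characterisation of schematic validity -/
theorem schem_num (φ : Form) : SchemValid.{u} φ ↔ ∀ z < zb (code φ),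
    (z.unpair.2.unpair.2.unpair.2.unpair.2 < z.unpair.2.unpair.1 →
     (evs z.unpair.2.unpair.1 z.unpair.2.unpair.2.unpair.1 (subst (sb z.unpair.1) φ)
      (fullN z.unpair.2.unpair.1) z.unpair.2.unpair.2.unpair.2.unpair.1).testBit
        z.unpair.2.unpair.2.unpair.2.unpair.2 = true) := by
  constructor
  · intro h z _ h3
    have key := sem z.unpair.2.unpair.1 z.unpair.2.unpair.2.unpair.1 (subst (sb z.unpair.1) φ)
      (fullN z.unpair.2.unpair.1) z.unpair.2.unpair.2.unpair.2.unpair.1 (eD_dD_mk _ _) ⟨_, h3⟩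
    simp only at key
    rw [key, dD_full]
    by_contra h6
    exact not_schem _ (VD_dep _ _) h6 h
  · intro h
    rw [schem_iff]
    intro τ n V S w h1 h2 hn hV
    set a := code φ with ha
    set B := BB (a + 1) with hB
    have hBB : BB (sz φ) ≤ B := BB_mono (sz_le φ)
    have hc : code (subst τ φ) ≤ B := h2.trans hBB
    have hn' : n ≤ 2 ^ (B + 1) := by
      refine hn.trans (Nat.pow_le_pow_right (by norm_num) ?_)
      exact (sz_le _).trans (by omega)
    obtain ⟨t, ht, hts⟩ := exists_t a B τ fun p => (h1 p).trans hBB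
    obtain ⟨T, hT, hTV⟩ := exists_T (n := n) B hV
    have hsub : subst (sb t) φ = subst τ φ := subst_congr φ a le_rfl hts
    let S0 := eS (B + 1) S
    have hS0 : S0 < 2 ^ (B + 1) := eS_lt _ _
    have hbig : big B n ≤ big B (2 ^ (B + 1)) :=
      pair_le_pair le_rfl (pair_le_pair (Nat.pow_le_pow_right (by norm_num) hn')
        (pair_le_pair le_rfl hn'))
    have hz : Nat.pair t (Nat.pair n (Nat.pair T (Nat.pair S0 w))) < zb a := by
      refine Nat.lt_succ_of_le (pair_le_pair ht.le (pair_le_pair hn' (pair_le_pair ?_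
        (pair_le_pair hS0.le (w.2.le.trans hn')))))
      exact hT.le.trans (Nat.pow_le_pow_right (by norm_num) hbig)
    have key := h _ hz
    simp only [Nat.unpair_pair] at key
    have key2 := key w.2
    rw [hsub, sem n T (subst τ φ) (fullN n) S0 (eD_dD_mk _ _) w, dD_full] at key2
    rw [← truthG_congr (subst τ φ) B hc hTV]
    rw [truthG_congrS (VD_dep n T) (subst τ φ) B hc Set.univ S (dS S0) w]
    · exact key2
    · intro ψ hψ
      simp only [S0, dS_eS, Set.mem_ofPred_eq]
      constructor
      · exact fun h => ⟨by omega, h⟩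
      · exact fun h => h.2

end R624EN
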