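import Pool.Agent.R624.EN.Real

/-!
Filtration: generalised countermodels may be taken of bounded size.
-/

namespace R624EN

universe u v

section
variable {W : Type u} {W' : Type v} (cls : W → W') (rep : W' → W)

/-- saturated sets -/
def Sat (X : Set W) : Prop := ∀ v, v ∈ X ↔ rep (cls v) ∈ X

/-- truth sets of the letters met during the evaluation -/
def occ (V : ℕ → Set W → Set Form → W → Prop) : Form → Set W → Set Form → List (Set W)
  | .var p, D, S => [{v | V p D S v}]
  | .neg φ, D, S => occ V φ D S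
  | .and φ ψ, D, S => occ V φ D S ++ occ V ψ D S
  | .K φ, D, S => occ V φ D S
  | .E _, _, _ => []
  | .ann φ ψ, D, S => occ V φ D S ++ occ V ψ {v | v ∈ D ∧ truthG V φ D S v} S
  | .add φ ψ, D, S => occ V ψ D (S ∪ {φ})
  | .del φ ψ, D, S => occ V ψ D (S \ {φ})
  | .real φ ψ, D, S => occ V φ D S ++ occ V ψ D (S ∪ {φ})

theorem occ_length (V : ℕ → Set W → Set Form → W → Prop) (φ : Form) :
    ∀ D S, (occ V φ D S).length ≤ sz φ := by
  induction φ with
  | var p => intro D S; simp [occ, sz]
  | neg φ ih => intro D S; simp only [occ, sz]; have := ih D S; omega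
  | K φ ih => intro D S; simp only [occ, sz]; have := ih D S; omega
  | E φ ih => intro D S; simp [occ]
  | and φ ψ ih1 ih2 =>
    intro D S; simp only [occ, sz, List.length_append]
    have := ih1 D S; have := ih2 D S; omega
  | ann φ ψ ih1 ih2 =>
    intro D S; simp only [occ, sz, List.length_append]
    have := ih1 D S; have := ih2 {v | v ∈ D ∧ truthG V φ D S v} S; omega
  | add φ ψ ih1 ih2 =>
    intro D S; simp only [occ, sz]
    have := ih2 D (S ∪ {φ}); omega
  | del φ ψ ih1 ih2 =>
    intro D S; simp only [occ, sz]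
    have := ih2 D (S \ {φ}); omega
  | real φ ψ ih1 ih2 =>
    intro D S; simp only [occ, sz, List.length_append]
    have := ih1 D S; have := ih2 D (S ∪ {φ}); omega

/-- transported valuation -/
def tr (V : ℕ → Set W → Set Form → W → Prop) : ℕ → Set W' → Set Form → W' → Prop :=
  fun p D S x => V p (cls ⁻¹' D) S (rep x)

theorem tr_dep {V : ℕ → Set W → Set Form → W → Prop} (hV : Dep V) : Dep (tr cls rep V) :=
  fun p D S S' w h => hV p (cls ⁻¹' D) S S' (rep w) h

variable {cls rep} (hcr : ∀ x, cls (rep x) = x)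

include hcr in
theorem filt (V : ℕ → Set W → Set Form → W → Prop) (φ : Form) : ∀ D S, Sat cls rep D →
    (∀ X ∈ occ V φ D S, Sat cls rep X) → ∀ w,
      (truthG (tr cls rep V) φ (rep ⁻¹' D) S (cls w) ↔ truthG V φ D S w) := by
  have hpre : ∀ D, Sat cls rep D → cls ⁻¹' (rep ⁻¹' D) = D := by
    intro D hD
    ext v
    exact (hD v).symm
  have hbox : ∀ (φ : Form) (D : Set W) (S : Set Form), Sat cls rep D →
      (∀ w, (truthG (tr cls rep V) φ (rep ⁻¹' D) S (cls w) ↔ truthG V φ D S w)) →
      ((∀ v ∈ rep ⁻¹' D, truthG (tr cls rep V) φ (rep ⁻¹' D) S v) ↔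
        ∀ v ∈ D, truthG V φ D S v) := by
    intro φ D S hD ih
    constructor
    · intro h v hv
      rw [← ih v]
      exact h _ ((hD v).1 hv)
    · intro h x hx
      have := (ih (rep x)).2 (h _ hx)
      rwa [hcr] at this
  induction φ with
  | var p =>
    intro D S hD hX w
    have h1 := hX {v | V p D S v} (by simp [occ]) w
    simp only [Set.mem_ofPred_eq] at h1
    simp only [truthG, tr, hpre D hD]
    exact h1.symm
  | neg φ ih => intro D S hD hX w; simp only [truthG, ih D S hD hX]
  | and φ ψ ih1 ih2 =>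
    intro D S hD hX w
    simp only [occ, List.mem_append] at hX
    simp only [truthG, ih1 D S hD fun X h => hX X (Or.inl h),
      ih2 D S hD fun X h => hX X (Or.inr h)]
  | K φ ih =>
    intro D S hD hX w
    simp only [truthG]
    exact hbox φ D S hD (ih D S hD hX)
  | E φ ih => intro D S hD hX w; simp only [truthG]
  | ann φ ψ ih1 ih2 =>
    intro D S hD hX w
    simp only [occ, List.mem_append] at hX
    have h1 := ih1 D S hD fun X h => hX X (Or.inl h)
    have hD2 : Sat cls rep {v | v ∈ D ∧ truthG V φ D S v} := by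
      intro v
      simp only [Set.mem_ofPred_eq]
      rw [← h1 v, ← h1 (rep (cls v)), hcr, ← hD v]
    have h2 := ih2 _ S hD2 (fun X h => hX X (Or.inr h)) w
    have h3 : rep ⁻¹' {v | v ∈ D ∧ truthG V φ D S v} =
        {x | x ∈ rep ⁻¹' D ∧ truthG (tr cls rep V) φ (rep ⁻¹' D) S x} := by
      ext x
      simp only [Set.mem_preimage, Set.mem_ofPred_eq]
      rw [← h1 (rep x), hcr]
    simp only [truthG]
    rw [h1 w, ← h3, h2]
  | add φ ψ ih1 ih2 =>
    intro D S hD hX w
    simp only [truthG]
    exact ih2 D _ hD hX w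
  | del φ ψ ih1 ih2 =>
    intro D S hD hX w
    simp only [truthG]
    exact ih2 D _ hD hX w
  | real φ ψ ih1 ih2 =>
    intro D S hD hX w
    simp only [occ, List.mem_append] at hX
    simp only [truthG]
    rw [hbox φ D S hD (ih1 D S hD fun X h => hX X (Or.inl h)),
      ih2 D _ hD (fun X h => hX X (Or.inr h)) w]

end

/-- Countermodels of bounded size. -/
theorem fmp {W : Type u} {V : ℕ → Set W → Set Form → W → Prop} (hV : Dep V)
    {φ : Form} {S : Set Form} {w : W} (h : ¬ truthG V φ Set.univ S w) :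
    ∃ n ≤ 2 ^ sz φ, ∃ V' : ℕ → Set (Fin n) → Set Form → Fin n → Prop, Dep V' ∧
      ∃ w', ¬ truthG V' φ Set.univ S w' := by
  classical
  set L := occ V φ Set.univ S with hL
  let ty : W → (Fin L.length → Bool) := fun v i => decide (v ∈ L.get i)
  let R := {t : Fin L.length → Bool // ∃ v, ty v = t}
  obtain ⟨n, ⟨e⟩⟩ := Finite.exists_equiv_fin R
  have hn : n ≤ 2 ^ sz φ := by
    have h1 : Fintype.card R ≤ Fintype.card (Fin L.length → Bool) := Fintype.card_subtype_le _
    have h2 : Fintype.card R = n := by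
      rw [Fintype.card_congr e, Fintype.card_fin]
    rw [h2] at h1
    simp only [Fintype.card_fun, Fintype.card_bool, Fintype.card_fin] at h1
    exact h1.trans (Nat.pow_le_pow_right (by norm_num) (occ_length V φ _ _))
  let cls : W → Fin n := fun v => e ⟨ty v, v, rfl⟩
  let rep : Fin n → W := fun x => (e.symm x).2.choose
  have hrep : ∀ x, ty (rep x) = (e.symm x).1 := fun x => (e.symm x).2.choose_spec
  have hcr : ∀ x, cls (rep x) = x := by
    intro x
    simp only [cls]
    have : (⟨ty (rep x), rep x, rfl⟩ : R) = e.symm x := Subtype.ext (hrep x)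
    rw [this, Equiv.apply_symm_apply]
  have hty : ∀ v, ty (rep (cls v)) = ty v := by
    intro v
    rw [hrep]
    simp only [cls, Equiv.symm_apply_apply]
  have hsat : ∀ X ∈ occ V φ Set.univ S, Sat cls rep X := by
    intro X hX v
    obtain ⟨i, hi⟩ := List.get_of_mem hX
    have h1 := congrFun (hty v) i
    simp only [ty, decide_eq_decide] at h1
    rw [← hi]
    exact h1.symm
  refine ⟨n, hn, tr cls rep V, tr_dep cls rep hV, cls w, ?_⟩
  have h1 := filt hcr V φ Set.univ S (fun v => by simp) hsat w
  simp only [Set.preimage_univ] at h1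
  rw [h1]
  exact h

theorem transfer {W : Type u} {W' : Type v} (e : W ≃ W')
    {V : ℕ → Set W → Set Form → W → Prop} (hV : Dep V)
    {φ : Form} {S : Set Form} {w : W} (h : ¬ truthG V φ Set.univ S w) :
    ∃ V' : ℕ → Set W' → Set Form → W' → Prop, Dep V' ∧ ∃ w', ¬ truthG V' φ Set.univ S w' := by
  refine ⟨tr e e.symm V, tr_dep _ _ hV, e w, ?_⟩
  have h1 := filt (cls := e) (rep := e.symm) (by simp) V φ Set.univ S (fun v => by simp)
    (fun X _ v => by simp) w
  simp only [Set.preimage_univ] at h1
  rw [h1]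
  exact h

/-- Schematic validity in terms of bounded generalised models. -/
theorem schem_iff (φ : Form) : SchemValid.{u} φ ↔
    ∀ (τ : ℕ → Form) (n : ℕ) (V : ℕ → Set (Fin n) → Set Form → Fin n → Prop) (S : Set Form)
      (w : Fin n), (∀ p, code (τ p) ≤ BB (sz φ)) → code (subst τ φ) ≤ BB (sz φ) →
      n ≤ 2 ^ sz (subst τ φ) → Dep V → truthG V (subst τ φ) Set.univ S w := by
  constructor
  · intro h τ n V S w _ _ _ hV
    by_contra h2
    obtain ⟨V', hV', w', h3⟩ := transfer (W' := ULift.{u} (Fin n)) Equiv.ulift.symm hV h2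
    exact realise hV' h3 h
  · intro h
    by_contra h2
    obtain ⟨τ, W, V, S, w, h3, h4, h5, h6⟩ := exists_gen h2
    obtain ⟨n, hn, V', hV', w', h7⟩ := fmp h5 h6
    exact h7 (h τ n V' S w' h3 h4 hn hV')

end R624EN
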