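import Pool.Agent.R624.EN.Defs

/-!
Generalised semantics for the logic of entertainment: one class, letters may depend on the
current set of worlds and on the entertained formulas of smaller number.
From a falsified substitution instance to a generalised countermodel of a bounded instance.
-/

namespace R624EN

universe u v

/-- Generalised truth on one epistemic class. -/
def truthG {W : Type u} (V : ℕ → Set W → Set Form → W → Prop) :
    Form → Set W → Set Form → W → Prop
  | .var p, D, S, w => V p D S w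
  | .neg φ, D, S, w => ¬ truthG V φ D S w
  | .and φ ψ, D, S, w => truthG V φ D S w ∧ truthG V ψ D S w
  | .K φ, D, S, _ => ∀ v ∈ D, truthG V φ D S v
  | .E φ, _, S, _ => φ ∈ S
  | .ann φ ψ, D, S, w => truthG V φ D S w → truthG V ψ {v | v ∈ D ∧ truthG V φ D S v} S w
  | .add φ ψ, D, S, w => truthG V ψ D (S ∪ {φ}) w
  | .del φ ψ, D, S, w => truthG V ψ D (S \ {φ}) w
  | .real φ ψ, D, S, w => (∀ v ∈ D, truthG V φ D S v) → truthG V ψ D (S ∪ {φ}) w

/-- The letter `p` depends only on the entertained formulas with number below `p`. -/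
def Dep {W : Type u} (V : ℕ → Set W → Set Form → W → Prop) : Prop :=
  ∀ p D S S' w, (∀ ψ, code ψ < p → (ψ ∈ S ↔ ψ ∈ S')) → (V p D S w ↔ V p D S' w)

/-- Reduction to one class. -/
theorem truth_class {W : Type u} {C : Type v} (f : C → W) (e : W → W → Prop)
    (V : ℕ → W → Prop) (h1 : ∀ c c', e (f c) (f c')) (h2 : ∀ c v, e (f c) v → ∃ c', f c' = v)
    (φ : Form) : ∀ (D : Set W) (A : W → Set Form) (S : Set Form), (∀ c, A (f c) = S) → ∀ c,
      (truth e V φ D A (f c) ↔ truthG (fun p _ _ c => V p (f c)) φ (f ⁻¹' D) S c) := by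
  induction φ with
  | var p => intro D A S hA c; rfl
  | neg φ ih => intro D A S hA c; simp only [truth, truthG, ih D A S hA c]
  | and φ ψ ih1 ih2 => intro D A S hA c; simp only [truth, truthG, ih1 D A S hA c, ih2 D A S hA c]
  | K φ ih =>
    intro D A S hA c
    simp only [truth, truthG]
    constructor
    · intro h c' hc'
      exact (ih D A S hA c').1 (h _ hc' (h1 c c'))
    · intro h v hv hcv
      obtain ⟨c', rfl⟩ := h2 c v hcv
      exact (ih D A S hA c').2 (h c' hv)
  | E φ ih => intro D A S hA c; simp only [truth, truthG, hA]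
  | ann φ ψ ih1 ih2 =>
    intro D A S hA c
    simp only [truth, truthG]
    rw [ih1 D A S hA c, ih2 _ A S hA c]
    have : f ⁻¹' {v | v ∈ D ∧ truth e V φ D A v} =
        {v | v ∈ f ⁻¹' D ∧ truthG (fun p _ _ c => V p (f c)) φ (f ⁻¹' D) S v} := by
      ext c'
      exact and_congr Iff.rfl (ih1 D A S hA c')
    rw [this]
  | add φ ψ ih1 ih2 =>
    intro D A S hA c
    simp only [truth, truthG]
    exact ih2 D _ (S ∪ {φ}) (fun c' => by simp only [hA]) c
  | del φ ψ ih1 ih2 =>
    intro D A S hA c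
    simp only [truth, truthG]
    exact ih2 D _ (S \ {φ}) (fun c' => by simp only [hA]) c
  | real φ ψ ih1 ih2 =>
    intro D A S hA c
    simp only [truth, truthG]
    have h3 : (∀ v ∈ D, e (f c) v → truth e V φ D A v) ↔
        ∀ v ∈ f ⁻¹' D, truthG (fun p _ _ c => V p (f c)) φ (f ⁻¹' D) S v := by
      constructor
      · intro h c' hc'
        exact (ih1 D A S hA c').1 (h _ hc' (h1 c c'))
      · intro h v hv hcv
        obtain ⟨c', rfl⟩ := h2 c v hcv
        exact (ih1 D A S hA c').2 (h c' hv)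
    rw [h3]
    exact imp_congr Iff.rfl (ih2 D _ (S ∪ {φ}) (fun c' => by simp only [hA]) c)

/-- Truth with a constant valuation depends only on formulas of smaller number. -/
theorem local_dep {W : Type u} (V : ℕ → W → Prop) (x : Form) : ∀ (D : Set W) (S S' : Set Form)
    (w : W), (∀ ψ, code ψ < code x → (ψ ∈ S ↔ ψ ∈ S')) →
      (truthG (fun p _ _ => V p) x D S w ↔ truthG (fun p _ _ => V p) x D S' w) := by
  induction x with
  | var p => intro D S S' w _; rfl
  | neg φ ih =>
    intro D S S' w h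
    simp only [truthG]
    rw [ih D S S' w fun ψ hψ => h ψ (by simp only [code]; omega)]
  | and φ ψ ih1 ih2 =>
    intro D S S' w h
    have hl := Nat.left_le_pair (code φ) (code ψ)
    have hr := Nat.right_le_pair (code φ) (code ψ)
    simp only [truthG]
    rw [ih1 D S S' w fun χ hχ => h χ (by simp only [code]; omega),
      ih2 D S S' w fun χ hχ => h χ (by simp only [code]; omega)]
  | K φ ih =>
    intro D S S' w h
    simp only [truthG]
    exact forall_congr' fun v => forall_congr' fun _ =>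
      ih D S S' v fun ψ hψ => h ψ (by simp only [code]; omega)
  | E φ ih =>
    intro D S S' w h
    exact h φ (by simp only [code]; omega)
  | ann φ ψ ih1 ih2 =>
    intro D S S' w h
    have hl := Nat.left_le_pair (code φ) (code ψ)
    have hr := Nat.right_le_pair (code φ) (code ψ)
    simp only [truthG]
    have h1 : ∀ v, truthG (fun p _ _ => V p) φ D S v ↔ truthG (fun p _ _ => V p) φ D S' v :=
      fun v => ih1 D S S' v fun χ hχ => h χ (by simp only [code]; omega)
    simp only [h1]
    rw [ih2 _ S S' w fun χ hχ => h χ (by simp only [code]; omega)]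
  | add φ ψ ih1 ih2 =>
    intro D S S' w h
    have hl := Nat.left_le_pair (code φ) (code ψ)
    have hr := Nat.right_le_pair (code φ) (code ψ)
    simp only [truthG]
    refine ih2 D _ _ w fun χ hχ => ?_
    have := h χ (by simp only [code]; omega)
    simp only [Set.mem_union, this]
  | del φ ψ ih1 ih2 =>
    intro D S S' w h
    have hl := Nat.left_le_pair (code φ) (code ψ)
    have hr := Nat.right_le_pair (code φ) (code ψ)
    simp only [truthG]
    refine ih2 D _ _ w fun χ hχ => ?_
    have := h χ (by simp only [code]; omega)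
    simp only [Set.mem_sdiff, this]
  | real φ ψ ih1 ih2 =>
    intro D S S' w h
    have hl := Nat.left_le_pair (code φ) (code ψ)
    have hr := Nat.right_le_pair (code φ) (code ψ)
    simp only [truthG]
    have h1 : ∀ v, truthG (fun p _ _ => V p) φ D S v ↔ truthG (fun p _ _ => V p) φ D S' v :=
      fun v => ih1 D S S' v fun χ hχ => h χ (by simp only [code]; omega)
    simp only [h1]
    refine imp_congr Iff.rfl (ih2 D _ _ w fun χ hχ => ?_)
    have := h χ (by simp only [code]; omega)
    simp only [Set.mem_union, this]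

/-! ### Collapsing a substitution -/

/-- subformulas -/
def subs : Form → List Form
  | .var p => [.var p]
  | .neg φ => .neg φ :: subs φ
  | .and φ ψ => .and φ ψ :: (subs φ ++ subs ψ)
  | .K φ => .K φ :: subs φ
  | .E φ => .E φ :: subs φ
  | .ann φ ψ => .ann φ ψ :: (subs φ ++ subs ψ)
  | .add φ ψ => .add φ ψ :: (subs φ ++ subs ψ)
  | .del φ ψ => .del φ ψ :: (subs φ ++ subs ψ)
  | .real φ ψ => .real φ ψ :: (subs φ ++ subs ψ)

/-- number of nodes -/
def sz : Form → ℕ
  | .var _ => 1
  | .neg φ => sz φ + 1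
  | .and φ ψ => sz φ + sz ψ + 1
  | .K φ => sz φ + 1
  | .E φ => sz φ + 1
  | .ann φ ψ => sz φ + sz ψ + 1
  | .add φ ψ => sz φ + sz ψ + 1
  | .del φ ψ => sz φ + sz ψ + 1
  | .real φ ψ => sz φ + sz ψ + 1

theorem subs_length (φ : Form) : (subs φ).length = sz φ := by
  induction φ <;> simp only [subs, sz, List.length_cons, List.length_append, List.length_nil] <;>
    omega

theorem self_mem (φ : Form) : φ ∈ subs φ := by
  cases φ <;> simp [subs]

/-- immediate subformulas -/
inductive Imm : Form → Form → Prop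
  | neg (φ) : Imm φ (.neg φ)
  | and1 (φ ψ) : Imm φ (.and φ ψ)
  | and2 (φ ψ) : Imm ψ (.and φ ψ)
  | K (φ) : Imm φ (.K φ)
  | E (φ) : Imm φ (.E φ)
  | ann1 (φ ψ) : Imm φ (.ann φ ψ)
  | ann2 (φ ψ) : Imm ψ (.ann φ ψ)
  | add1 (φ ψ) : Imm φ (.add φ ψ)
  | add2 (φ ψ) : Imm ψ (.add φ ψ)
  | del1 (φ ψ) : Imm φ (.del φ ψ)
  | del2 (φ ψ) : Imm ψ (.del φ ψ)
  | real1 (φ ψ) : Imm φ (.real φ ψ)
  | real2 (φ ψ) : Imm ψ (.real φ ψ)

theorem Imm.code_lt {φ ψ : Form} (h : Imm φ ψ) : code φ < code ψ := by
  cases h with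
  | neg => simp only [code]; omega
  | K => simp only [code]; omega
  | E => simp only [code]; omega
  | and1 _ b => simp only [code]; have := Nat.left_le_pair (code φ) (code b); omega
  | and2 a _ => simp only [code]; have := Nat.right_le_pair (code a) (code φ); omega
  | ann1 _ b => simp only [code]; have := Nat.left_le_pair (code φ) (code b); omega
  | ann2 a _ => simp only [code]; have := Nat.right_le_pair (code a) (code φ); omega
  | add1 _ b => simp only [code]; have := Nat.left_le_pair (code φ) (code b); omega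
  | add2 a _ => simp only [code]; have := Nat.right_le_pair (code a) (code φ); omega
  | del1 _ b => simp only [code]; have := Nat.left_le_pair (code φ) (code b); omega
  | del2 a _ => simp only [code]; have := Nat.right_le_pair (code a) (code φ); omega
  | real1 _ b => simp only [code]; have := Nat.left_le_pair (code φ) (code b); omega
  | real2 a _ => simp only [code]; have := Nat.right_le_pair (code a) (code φ); omega

theorem Imm.mem {φ ψ : Form} (h : Imm φ ψ) : ∀ χ, ψ ∈ subs χ → φ ∈ subs χ := by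
  intro χ
  induction χ with
  | var p =>
    intro h2
    simp only [subs, List.mem_singleton] at h2
    subst h2
    cases h
  | neg a ih =>
    intro h2
    simp only [subs, List.mem_cons] at h2 ⊢
    rcases h2 with rfl | h2
    · cases h; exact Or.inr (self_mem _)
    · exact Or.inr (ih h2)
  | K a ih =>
    intro h2
    simp only [subs, List.mem_cons] at h2 ⊢
    rcases h2 with rfl | h2
    · cases h; exact Or.inr (self_mem _)
    · exact Or.inr (ih h2)
  | E a ih =>
    intro h2
    simp only [subs, List.mem_cons] at h2 ⊢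
    rcases h2 with rfl | h2
    · cases h; exact Or.inr (self_mem _)
    · exact Or.inr (ih h2)
  | and a b ih1 ih2 =>
    intro h2
    simp only [subs, List.mem_cons, List.mem_append] at h2 ⊢
    rcases h2 with rfl | h2 | h2
    · cases h
      · exact Or.inr (Or.inl (self_mem _))
      · exact Or.inr (Or.inr (self_mem _))
    · exact Or.inr (Or.inl (ih1 h2))
    · exact Or.inr (Or.inr (ih2 h2))
  | ann a b ih1 ih2 =>
    intro h2
    simp only [subs, List.mem_cons, List.mem_append] at h2 ⊢
    rcases h2 with rfl | h2 | h2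
    · cases h
      · exact Or.inr (Or.inl (self_mem _))
      · exact Or.inr (Or.inr (self_mem _))
    · exact Or.inr (Or.inl (ih1 h2))
    · exact Or.inr (Or.inr (ih2 h2))
  | add a b ih1 ih2 =>
    intro h2
    simp only [subs, List.mem_cons, List.mem_append] at h2 ⊢
    rcases h2 with rfl | h2 | h2
    · cases h
      · exact Or.inr (Or.inl (self_mem _))
      · exact Or.inr (Or.inr (self_mem _))
    · exact Or.inr (Or.inl (ih1 h2))
    · exact Or.inr (Or.inr (ih2 h2))
  | del a b ih1 ih2 =>
    intro h2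
    simp only [subs, List.mem_cons, List.mem_append] at h2 ⊢
    rcases h2 with rfl | h2 | h2
    · cases h
      · exact Or.inr (Or.inl (self_mem _))
      · exact Or.inr (Or.inr (self_mem _))
    · exact Or.inr (Or.inl (ih1 h2))
    · exact Or.inr (Or.inr (ih2 h2))
  | real a b ih1 ih2 =>
    intro h2
    simp only [subs, List.mem_cons, List.mem_append] at h2 ⊢
    rcases h2 with rfl | h2 | h2
    · cases h
      · exact Or.inr (Or.inl (self_mem _))
      · exact Or.inr (Or.inr (self_mem _))
    · exact Or.inr (Or.inl (ih1 h2))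
    · exact Or.inr (Or.inr (ih2 h2))

/-- the growing bound -/
def BB : ℕ → ℕ
  | 0 => 0
  | k + 1 => 9 * Nat.pair (BB k + 1) (BB k + 1) + 8

theorem BB_step (k : ℕ) : BB k ≤ BB (k + 1) := by
  simp only [BB]
  have := Nat.left_le_pair (BB k + 1) (BB k + 1)
  omega

theorem BB_mono {k l : ℕ} (h : k ≤ l) : BB k ≤ BB l := monotone_nat_of_le_succ BB_step h

theorem pair_mono {a b c d : ℕ} (h : a ≤ c) (h' : b ≤ d) : Nat.pair a b ≤ Nat.pair c d := by
  have h1 : Nat.pair a b ≤ Nat.pair c b := by
    rcases h.lt_or_eq with h | rfl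
    · exact (Nat.pair_lt_pair_left b h).le
    · exact le_rfl
  have h2 : Nat.pair c b ≤ Nat.pair c d := by
    rcases h'.lt_or_eq with h' | rfl
    · exact (Nat.pair_lt_pair_right c h').le
    · exact le_rfl
  exact h1.trans h2

section
open Classical

variable (σ : ℕ → Form) (φ : Form)

/-- values of subformulas -/
def XX : Set Form := {x | ∃ ψ ∈ subs φ, subst σ ψ = x}

/-- values of compound subformulas -/
def CC (x : Form) : Prop := ∃ ψ ∈ subs φ, (∀ p, ψ ≠ .var p) ∧ subst σ ψ = x

/-- the values as a finite set -/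
noncomputable def XF : Finset Form := ((subs φ).map (subst σ)).toFinset

theorem mem_XF {x : Form} : x ∈ XF σ φ ↔ x ∈ XX σ φ := by
  simp [XF, XX]

theorem card_XF : (XF σ φ).card ≤ sz φ := by
  rw [← subs_length]
  refine (List.toFinset_card_le _).trans ?_
  simp

/-- rank of a value -/
noncomputable def idx (x : Form) : ℕ := ((XF σ φ).filter fun y => code y < code x).card

theorem idx_lt {a x : Form} (ha : a ∈ XX σ φ) (h : code a < code x) :
    idx σ φ a < idx σ φ x := by
  apply Finset.card_lt_card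
  refine ⟨fun y hy => ?_, fun h2 => ?_⟩
  · simp only [Finset.mem_filter] at hy ⊢
    exact ⟨hy.1, hy.2.trans h⟩
  · have : a ∈ (XF σ φ).filter fun y => code y < code x := by
      simp only [Finset.mem_filter]
      exact ⟨(mem_XF σ φ).2 ha, h⟩
    have := h2 this
    simp at this

theorem idx_lt_card {a : Form} (ha : a ∈ XX σ φ) : idx σ φ a < (XF σ φ).card := by
  apply Finset.card_lt_card
  refine ⟨Finset.filter_subset _ _, fun h2 => ?_⟩
  have := h2 ((mem_XF σ φ).2 ha)
  simp at this

/-- letter assigned to a value -/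
noncomputable def num (x : Form) : ℕ := BB (idx σ φ x) + 1

/-- the collapse -/
noncomputable def tt : Form → Form
  | .var p => .var (num σ φ (.var p))
  | .neg a => if CC σ φ (.neg a) then .neg (tt a) else .var (num σ φ (.neg a))
  | .and a b => if CC σ φ (.and a b) then .and (tt a) (tt b) else .var (num σ φ (.and a b))
  | .K a => if CC σ φ (.K a) then .K (tt a) else .var (num σ φ (.K a))
  | .E a => if CC σ φ (.E a) then .E (tt a) else .var (num σ φ (.E a))
  | .ann a b => if CC σ φ (.ann a b) then .ann (tt a) (tt b) else .var (num σ φ (.ann a b))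
  | .add a b => if CC σ φ (.add a b) then .add (tt a) (tt b) else .var (num σ φ (.add a b))
  | .del a b => if CC σ φ (.del a b) then .del (tt a) (tt b) else .var (num σ φ (.del a b))
  | .real a b => if CC σ φ (.real a b) then .real (tt a) (tt b) else .var (num σ φ (.real a b))

variable {σ φ}

theorem CC.imm {x a : Form} (h : CC σ φ x) (hi : Imm a x) : a ∈ XX σ φ := by
  obtain ⟨ψ, h1, h2, rfl⟩ := h
  cases ψ with
  | var p => exact absurd rfl (h2 p)
  | neg b => cases hi; exact ⟨b, (Imm.neg b).mem _ h1, rfl⟩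
  | K b => cases hi; exact ⟨b, (Imm.K b).mem _ h1, rfl⟩
  | E b => cases hi; exact ⟨b, (Imm.E b).mem _ h1, rfl⟩
  | and b c =>
    cases hi
    · exact ⟨b, (Imm.and1 b c).mem _ h1, rfl⟩
    · exact ⟨c, (Imm.and2 b c).mem _ h1, rfl⟩
  | ann b c =>
    cases hi
    · exact ⟨b, (Imm.ann1 b c).mem _ h1, rfl⟩
    · exact ⟨c, (Imm.ann2 b c).mem _ h1, rfl⟩
  | add b c =>
    cases hi
    · exact ⟨b, (Imm.add1 b c).mem _ h1, rfl⟩
    · exact ⟨c, (Imm.add2 b c).mem _ h1, rfl⟩
  | del b c =>
    cases hi
    · exact ⟨b, (Imm.del1 b c).mem _ h1, rfl⟩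
    · exact ⟨c, (Imm.del2 b c).mem _ h1, rfl⟩
  | real b c =>
    cases hi
    · exact ⟨b, (Imm.real1 b c).mem _ h1, rfl⟩
    · exact ⟨c, (Imm.real2 b c).mem _ h1, rfl⟩

theorem tt_subst (ψ : Form) : ψ ∈ subs φ → tt σ φ (subst σ ψ) = subst (fun p => tt σ φ (σ p)) ψ := by
  induction ψ with
  | var p => intro _; rfl
  | neg a ih =>
    intro h
    have hc : CC σ φ (subst σ (.neg a)) := ⟨_, h, by simp, rfl⟩
    simp only [subst] at hc ⊢
    rw [tt, if_pos hc, ih ((Imm.neg a).mem _ h)]
  | K a ih =>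
    intro h
    have hc : CC σ φ (subst σ (.K a)) := ⟨_, h, by simp, rfl⟩
    simp only [subst] at hc ⊢
    rw [tt, if_pos hc, ih ((Imm.K a).mem _ h)]
  | E a ih =>
    intro h
    have hc : CC σ φ (subst σ (.E a)) := ⟨_, h, by simp, rfl⟩
    simp only [subst] at hc ⊢
    rw [tt, if_pos hc, ih ((Imm.E a).mem _ h)]
  | and a b ih1 ih2 =>
    intro h
    have hc : CC σ φ (subst σ (.and a b)) := ⟨_, h, by simp, rfl⟩
    simp only [subst] at hc ⊢
    rw [tt, if_pos hc, ih1 ((Imm.and1 a b).mem _ h), ih2 ((Imm.and2 a b).mem _ h)]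
  | ann a b ih1 ih2 =>
    intro h
    have hc : CC σ φ (subst σ (.ann a b)) := ⟨_, h, by simp, rfl⟩
    simp only [subst] at hc ⊢
    rw [tt, if_pos hc, ih1 ((Imm.ann1 a b).mem _ h), ih2 ((Imm.ann2 a b).mem _ h)]
  | add a b ih1 ih2 =>
    intro h
    have hc : CC σ φ (subst σ (.add a b)) := ⟨_, h, by simp, rfl⟩
    simp only [subst] at hc ⊢
    rw [tt, if_pos hc, ih1 ((Imm.add1 a b).mem _ h), ih2 ((Imm.add2 a b).mem _ h)]
  | del a b ih1 ih2 =>
    intro h
    have hc : CC σ φ (subst σ (.del a b)) := ⟨_, h, by simp, rfl⟩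
    simp only [subst] at hc ⊢
    rw [tt, if_pos hc, ih1 ((Imm.del1 a b).mem _ h), ih2 ((Imm.del2 a b).mem _ h)]
  | real a b ih1 ih2 =>
    intro h
    have hc : CC σ φ (subst σ (.real a b)) := ⟨_, h, by simp, rfl⟩
    simp only [subst] at hc ⊢
    rw [tt, if_pos hc, ih1 ((Imm.real1 a b).mem _ h), ih2 ((Imm.real2 a b).mem _ h)]

/-- Case analysis for the collapse: an induction principle. -/
theorem tt_cases (x : Form) : tt σ φ x = .var (num σ φ x) ∨ (CC σ φ x ∧
    ((∃ a, x = .neg a ∧ tt σ φ x = .neg (tt σ φ a)) ∨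
     (∃ a, x = .K a ∧ tt σ φ x = .K (tt σ φ a)) ∨
     (∃ a, x = .E a ∧ tt σ φ x = .E (tt σ φ a)) ∨
     (∃ a b, x = .and a b ∧ tt σ φ x = .and (tt σ φ a) (tt σ φ b)) ∨
     (∃ a b, x = .ann a b ∧ tt σ φ x = .ann (tt σ φ a) (tt σ φ b)) ∨
     (∃ a b, x = .add a b ∧ tt σ φ x = .add (tt σ φ a) (tt σ φ b)) ∨
     (∃ a b, x = .del a b ∧ tt σ φ x = .del (tt σ φ a) (tt σ φ b)) ∨
     (∃ a b, x = .real a b ∧ tt σ φ x = .real (tt σ φ a) (tt σ φ b)))) := by
  by_cases h : CC σ φ x
  · cases x with
    | var p => left; rfl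
    | neg a => right; exact ⟨h, Or.inl ⟨a, rfl, by rw [tt, if_pos h]⟩⟩
    | K a => right; exact ⟨h, Or.inr (Or.inl ⟨a, rfl, by rw [tt, if_pos h]⟩)⟩
    | E a => right; exact ⟨h, Or.inr (Or.inr (Or.inl ⟨a, rfl, by rw [tt, if_pos h]⟩))⟩
    | and a b =>
      right; exact ⟨h, Or.inr (Or.inr (Or.inr (Or.inl ⟨a, b, rfl, by rw [tt, if_pos h]⟩)))⟩
    | ann a b =>
      right
      exact ⟨h, Or.inr (Or.inr (Or.inr (Or.inr (Or.inl ⟨a, b, rfl, by rw [tt, if_pos h]⟩))))⟩
    | add a b =>
      right
      exact ⟨h, Or.inr (Or.inr (Or.inr (Or.inr (Or.inr (Or.inl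
        ⟨a, b, rfl, by rw [tt, if_pos h]⟩)))))⟩
    | del a b =>
      right
      exact ⟨h, Or.inr (Or.inr (Or.inr (Or.inr (Or.inr (Or.inr (Or.inl
        ⟨a, b, rfl, by rw [tt, if_pos h]⟩))))))⟩
    | real a b =>
      right
      exact ⟨h, Or.inr (Or.inr (Or.inr (Or.inr (Or.inr (Or.inr (Or.inr
        ⟨a, b, rfl, by rw [tt, if_pos h]⟩))))))⟩
  · left
    cases x <;> first | rfl | (rw [tt, if_neg h])

theorem code_tt_aux {σ : ℕ → Form} {φ : Form} {x a : Form} (ha : a ∈ XX σ φ) (h : Imm a x)
    (ih : code (tt σ φ a) ≤ BB (idx σ φ a + 1)) : code (tt σ φ a) ≤ BB (idx σ φ x) :=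
  ih.trans (BB_mono (idx_lt σ φ ha h.code_lt))

theorem code_tt (x : Form) : x ∈ XX σ φ → code (tt σ φ x) ≤ BB (idx σ φ x + 1) := by
  have hpair : ∀ {a b k : ℕ}, a ≤ BB k → b ≤ BB k → 9 * Nat.pair a b + 8 ≤ BB (k + 1) := by
    intro a b k h1 h2
    have := pair_mono (h1.trans (Nat.le_succ _)) (h2.trans (Nat.le_succ _))
    simp only [Nat.succ_eq_add_one] at this
    simp only [BB]
    omega
  have hun : ∀ {a k : ℕ}, a ≤ BB k → 9 * a + 8 ≤ BB (k + 1) := by
    intro a k h1
    have h3 := Nat.left_le_pair (BB k + 1) (BB k + 1)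
    simp only [BB]
    omega
  induction x using (measure code).wf.induction with
  | _ x ih =>
    intro hx
    rcases tt_cases (σ := σ) (φ := φ) x with h | ⟨hc, h⟩
    · rw [h]
      simp only [code, num, BB]
      have h3 := Nat.left_le_pair (BB (idx σ φ x) + 1) (BB (idx σ φ x) + 1)
      omega
    · have key : ∀ a, Imm a x → code (tt σ φ a) ≤ BB (idx σ φ x) := fun a ha =>
        code_tt_aux (hc.imm ha) ha (ih a ha.code_lt (hc.imm ha))
      rcases h with ⟨a, rfl, h⟩ | ⟨a, rfl, h⟩ | ⟨a, rfl, h⟩ | ⟨a, b, rfl, h⟩ | ⟨a, b, rfl, h⟩ |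
        ⟨a, b, rfl, h⟩ | ⟨a, b, rfl, h⟩ | ⟨a, b, rfl, h⟩
      · rw [h]; simp only [code]; have := hun (key a (.neg a)); omega
      · rw [h]; simp only [code]; have := hun (key a (.K a)); omega
      · rw [h]; simp only [code]; have := hun (key a (.E a)); omega
      · rw [h]; simp only [code]; have := hpair (key a (.and1 a b)) (key b (.and2 a b)); omega
      · rw [h]; simp only [code]; have := hpair (key a (.ann1 a b)) (key b (.ann2 a b)); omega
      · rw [h]; simp only [code]; have := hpair (key a (.add1 a b)) (key b (.add2 a b)); omega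
      · rw [h]; simp only [code]; have := hpair (key a (.del1 a b)) (key b (.del2 a b)); omega
      · rw [h]; simp only [code]; have := hpair (key a (.real1 a b)) (key b (.real2 a b)); omega

end

end R624EN
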