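import Pool.Agent.R624.EN.Col

/-!
Realisation: a generalised countermodel on a finite class gives a falsified substitution
instance in an ordinary model.
-/

namespace R624EN

universe u v

theorem subst_comp (σ τ : ℕ → Form) (φ : Form) :
    subst σ (subst τ φ) = subst (fun p => subst σ (τ p)) φ := by
  induction φ <;> simp only [subst, *]

/-! ### definability with names -/

section
variable {W : Type u} (V0 : ℕ → W → Prop)

/-- truth with a constant valuation -/
def TU (x : Form) (D : Set W) (G : Set Form) (w : W) : Prop :=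
  truthG (fun p _ _ => V0 p) x D G w

/-- definable predicates -/
def Df (Q : Set W → Set Form → W → Prop) : Prop :=
  ∃ x, ∀ D G w, TU V0 x D G w ↔ Q D G w

variable {V0}

theorem Df.congr {Q R : Set W → Set Form → W → Prop} (h : Df V0 Q)
    (e : ∀ D G w, Q D G w ↔ R D G w) : Df V0 R := by
  obtain ⟨x, hx⟩ := h
  exact ⟨x, fun D G w => (hx D G w).trans (e D G w)⟩

theorem Df.not {Q : Set W → Set Form → W → Prop} (h : Df V0 Q) :
    Df V0 (fun D G w => ¬ Q D G w) := by
  obtain ⟨x, hx⟩ := h
  exact ⟨.neg x, fun D G w => not_congr (hx D G w)⟩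

theorem Df.and {Q R : Set W → Set Form → W → Prop} (h : Df V0 Q) (h' : Df V0 R) :
    Df V0 (fun D G w => Q D G w ∧ R D G w) := by
  obtain ⟨x, hx⟩ := h
  obtain ⟨y, hy⟩ := h'
  exact ⟨.and x y, fun D G w => and_congr (hx D G w) (hy D G w)⟩

theorem Df.or {Q R : Set W → Set Form → W → Prop} (h : Df V0 Q) (h' : Df V0 R) :
    Df V0 (fun D G w => Q D G w ∨ R D G w) :=
  ((h.not.and h'.not).not).congr fun D G w => by tauto

theorem Df.iff {Q R : Set W → Set Form → W → Prop} (h : Df V0 Q) (h' : Df V0 R) :
    Df V0 (fun D G w => Q D G w ↔ R D G w) :=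
  ((h.and h').or (h.not.and h'.not)).congr fun D G w => by tauto

theorem Df.const (P : Prop) : Df V0 (fun _ _ _ => P) := by
  have hF : Df V0 (fun _ _ _ => False) := by
    refine ⟨.and (.var 0) (.neg (.var 0)), fun D G w => ?_⟩
    simp only [TU, truthG]
    tauto
  by_cases hP : P
  · exact hF.not.congr fun _ _ _ => by tauto
  · exact hF.congr fun _ _ _ => by tauto

theorem Df.exF {ι : Type v} (s : Finset ι) {Q : ι → Set W → Set Form → W → Prop}
    (h : ∀ i, Df V0 (Q i)) : Df V0 (fun D G w => ∃ i ∈ s, Q i D G w) := by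
  classical
  induction s using Finset.induction_on with
  | empty => exact (Df.const False).congr fun _ _ _ => by simp
  | insert a s _ ih => exact ((h a).or ih).congr fun _ _ _ => by simp

theorem Df.ex {ι : Type v} [Finite ι] {Q : ι → Set W → Set Form → W → Prop}
    (h : ∀ i, Df V0 (Q i)) : Df V0 (fun D G w => ∃ i, Q i D G w) := by
  classical
  cases nonempty_fintype ι
  exact (Df.exF Finset.univ h).congr fun _ _ _ => by simp

theorem Df.all {ι : Type v} [Finite ι] {Q : ι → Set W → Set Form → W → Prop}
    (h : ∀ i, Df V0 (Q i)) : Df V0 (fun D G w => ∀ i, Q i D G w) :=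
  ((Df.ex fun i => (h i).not).not).congr fun _ _ _ => by simp

variable (nm : W → ℕ) (hnm : Function.Injective nm)

/-- valuation by names -/
def VN : ℕ → W → Prop := fun p w => nm w = p

include hnm in
theorem Df.name (v : W) : Df (VN nm) (fun _ _ w => w = v) :=
  ⟨.var (nm v), fun _ _ _ => by simp only [TU, truthG, VN]; exact hnm.eq_iff⟩

include hnm in
theorem Df.dom (v : W) : Df (VN nm) (fun D _ _ => v ∈ D) := by
  refine ⟨.neg (.K (.neg (.var (nm v)))), fun D G w => ?_⟩
  simp only [TU, truthG, VN]
  constructor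
  · intro h
    by_contra h2
    exact h fun v' hv' h3 => h2 (hnm h3 ▸ hv')
  · intro h h2
    exact h2 v h rfl

theorem Df.mem (x : Form) : Df V0 (fun _ G _ => x ∈ G) := ⟨.E x, fun _ _ _ => Iff.rfl⟩

include hnm in
/-- Every finitary predicate is definable. -/
theorem Df.fin [Finite W] {ι : Type v} [Finite ι] (a : ι → Form)
    (Q : Set W → Set ι → W → Prop) :
    Df (VN nm) (fun D G w => Q D {i | a i ∈ G} w) := by
  have h1 : Df (VN nm) (fun D G w => ∃ (D0 : Set W) (T : Set ι) (w0 : W),
      Q D0 T w0 ∧ ((∀ v : W, (v ∈ D ↔ v ∈ D0)) ∧ ((∀ i : ι, (a i ∈ G ↔ i ∈ T)) ∧ w = w0))) := by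
    refine Df.ex fun D0 => Df.ex fun T => Df.ex fun w0 => (Df.const _).and (Df.and ?_ (Df.and ?_ ?_))
    · exact Df.all fun v => (Df.dom nm hnm v).iff (Df.const _)
    · exact Df.all fun i => (Df.mem _).iff (Df.const _)
    · exact Df.name nm hnm w0
  refine h1.congr fun D G w => ?_
  constructor
  · rintro ⟨D0, T, w0, h2, h3, h4, rfl⟩
    have e1 : D = D0 := Set.ext h3
    have e2 : {i | a i ∈ G} = T := Set.ext h4
    rw [e1, e2]
    exact h2
  · intro h
    exact ⟨D, {i | a i ∈ G}, w, h, fun _ => Iff.rfl, fun _ => Iff.rfl, rfl⟩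

end

/-! ### the realising substitution -/

section
variable {W : Type u} [Finite W] (nm : W → ℕ) (hnm : Function.Injective nm)
  (V : ℕ → Set W → Set Form → W → Prop)

instance finCode (p : ℕ) : Finite {ξ : Form // code ξ < p} :=
  Finite.of_injective (fun ξ => (⟨code ξ.1, ξ.2⟩ : Fin p)) fun a b h => by
    simp only [Fin.mk.injEq] at h
    exact Subtype.ext (code_inj h)

/-- tags -/
def tag (p : ℕ) : Form := .neg (.and (.var p) (.neg (.var p)))

/-- body of the realising formula given the substitution below -/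
noncomputable def body (p : ℕ) (s : ℕ → Form) : Form :=
  Classical.choose (Df.fin nm hnm (fun ξ : {ξ : Form // code ξ < p} => subst s ξ.1)
    (fun D T w => V p D {ξ | ∃ h : code ξ < p, (⟨ξ, h⟩ : {ξ : Form // code ξ < p}) ∈ T} w))

theorem body_spec (p : ℕ) (s : ℕ → Form) (D : Set W) (G : Set Form) (w : W) :
    TU (VN nm) (body nm hnm V p s) D G w ↔ V p D {ξ | code ξ < p ∧ subst s ξ ∈ G} w := by
  have h := Classical.choose_spec (Df.fin nm hnm (fun ξ : {ξ : Form // code ξ < p} => subst s ξ.1)
    (fun D T w => V p D {ξ | ∃ h : code ξ < p, (⟨ξ, h⟩ : {ξ : Form // code ξ < p}) ∈ T} w)) D G w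
  refine h.trans ?_
  have : {ξ : Form | ∃ h : code ξ < p, (⟨ξ, h⟩ : {ξ : Form // code ξ < p}) ∈
      {i : {ξ : Form // code ξ < p} | subst s i.1 ∈ G}} = {ξ | code ξ < p ∧ subst s ξ ∈ G} := by
    ext ξ
    simp only [Set.mem_ofPred_eq, exists_prop]
  beta_reduce
  rw [this]

/-- the realising substitution -/
noncomputable def th (p : ℕ) : Form :=
  .and (body nm hnm V p fun q => if _h : q < p then th q else .var 0) (tag p)
termination_by p

theorem th_eq (p : ℕ) : ∃ b, th nm hnm V p = .and b (tag p) := by
  rw [th]; exact ⟨_, rfl⟩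

theorem th_spec (p : ℕ) (D : Set W) (G : Set Form) (w : W) :
    TU (VN nm) (th nm hnm V p) D G w ↔
      V p D {ξ | code ξ < p ∧ subst (th nm hnm V) ξ ∈ G} w := by
  rw [th]
  have h1 : ∀ b, TU (VN nm) (.and b (tag p)) D G w ↔ TU (VN nm) b D G w := by
    intro b
    simp only [TU, tag, truthG]
    tauto
  rw [h1, body_spec]
  have : {ξ | code ξ < p ∧ subst (fun q => if _h : q < p then th nm hnm V q else .var 0) ξ ∈ G} =
      {ξ | code ξ < p ∧ subst (th nm hnm V) ξ ∈ G} := by
    ext ξ
    simp only [Set.mem_ofPred_eq]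
    refine and_congr_right fun h => ?_
    rw [subst_congr (τ := th nm hnm V) ξ (code ξ) le_rfl fun q hq => by
      rw [dif_pos (lt_of_le_of_lt hq h)]]
  rw [this]

theorem sub_ne_var (ξ : Form) (q : ℕ) : subst (th nm hnm V) ξ ≠ .var q := by
  cases ξ with
  | var p =>
    obtain ⟨b, hb⟩ := th_eq nm hnm V p
    simp only [subst, hb]
    exact fun h => by cases h
  | _ => simp [subst]

theorem sub_ne_tag (ξ : Form) (p : ℕ) : subst (th nm hnm V) ξ ≠ tag p := by
  intro h
  cases ξ with
  | var q =>
    obtain ⟨b, hb⟩ := th_eq nm hnm V q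
    simp only [subst, hb, tag] at h
    cases h
  | neg c =>
    simp only [subst, tag, Form.neg.injEq] at h
    cases c with
    | var q =>
      obtain ⟨b, hb⟩ := th_eq nm hnm V q
      simp only [subst, hb, tag, Form.and.injEq] at h
      have h2 := h.2
      simp only [Form.neg.injEq] at h2
      cases h2
    | and c d =>
      simp only [subst, Form.and.injEq] at h
      exact sub_ne_var nm hnm V c p h.1
    | _ => simp [subst] at h
  | _ => simp [subst, tag] at h

theorem tag_inj {p q : ℕ} (h : tag p = tag q) : p = q := by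
  simp only [tag, Form.neg.injEq, Form.and.injEq, Form.var.injEq] at h
  exact h.1

theorem sub_inj : Function.Injective (subst (th nm hnm V)) := by
  intro ξ
  induction ξ with
  | var p =>
    intro ξ' h
    obtain ⟨b, hb⟩ := th_eq nm hnm V p
    simp only [subst, hb] at h
    cases ξ' with
    | var q =>
      obtain ⟨b', hb'⟩ := th_eq nm hnm V q
      simp only [subst, hb', Form.and.injEq] at h
      rw [tag_inj h.2]
    | and c d =>
      simp only [subst, Form.and.injEq] at h
      exact absurd h.2.symm (sub_ne_tag nm hnm V d p)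
    | _ => simp [subst] at h
  | and a b ih1 ih2 =>
    intro ξ' h
    cases ξ' with
    | var q =>
      obtain ⟨b', hb'⟩ := th_eq nm hnm V q
      simp only [subst, hb', Form.and.injEq] at h
      exact absurd h.2 (sub_ne_tag nm hnm V b q)
    | and c d =>
      simp only [subst, Form.and.injEq] at h
      rw [ih1 h.1, ih2 h.2]
    | _ => simp [subst] at h
  | neg a ih =>
    intro ξ' h
    cases ξ' with
    | var q =>
      obtain ⟨b', hb'⟩ := th_eq nm hnm V q
      simp only [subst, hb'] at h
      cases h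
    | neg c => simp only [subst, Form.neg.injEq] at h; rw [ih h]
    | _ => simp [subst] at h
  | K a ih =>
    intro ξ' h
    cases ξ' with
    | var q =>
      obtain ⟨b', hb'⟩ := th_eq nm hnm V q
      simp only [subst, hb'] at h
      cases h
    | K c => simp only [subst, Form.K.injEq] at h; rw [ih h]
    | _ => simp [subst] at h
  | E a ih =>
    intro ξ' h
    cases ξ' with
    | var q =>
      obtain ⟨b', hb'⟩ := th_eq nm hnm V q
      simp only [subst, hb'] at h
      cases h
    | E c => simp only [subst, Form.E.injEq] at h; rw [ih h]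
    | _ => simp [subst] at h
  | ann a b ih1 ih2 =>
    intro ξ' h
    cases ξ' with
    | var q =>
      obtain ⟨b', hb'⟩ := th_eq nm hnm V q
      simp only [subst, hb'] at h
      cases h
    | ann c d => simp only [subst, Form.ann.injEq] at h; rw [ih1 h.1, ih2 h.2]
    | _ => simp [subst] at h
  | add a b ih1 ih2 =>
    intro ξ' h
    cases ξ' with
    | var q =>
      obtain ⟨b', hb'⟩ := th_eq nm hnm V q
      simp only [subst, hb'] at h
      cases h
    | add c d => simp only [subst, Form.add.injEq] at h; rw [ih1 h.1, ih2 h.2]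
    | _ => simp [subst] at h
  | del a b ih1 ih2 =>
    intro ξ' h
    cases ξ' with
    | var q =>
      obtain ⟨b', hb'⟩ := th_eq nm hnm V q
      simp only [subst, hb'] at h
      cases h
    | del c d => simp only [subst, Form.del.injEq] at h; rw [ih1 h.1, ih2 h.2]
    | _ => simp [subst] at h
  | real a b ih1 ih2 =>
    intro ξ' h
    cases ξ' with
    | var q =>
      obtain ⟨b', hb'⟩ := th_eq nm hnm V q
      simp only [subst, hb'] at h
      cases h
    | real c d => simp only [subst, Form.real.injEq] at h; rw [ih1 h.1, ih2 h.2]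
    | _ => simp [subst] at h

/-- the generalised awareness set read off an actual one -/
def pull (G : Set Form) : Set Form := {ξ | subst (th nm hnm V) ξ ∈ G}

theorem pull_add (G : Set Form) (φ : Form) :
    pull nm hnm V (G ∪ {subst (th nm hnm V) φ}) = pull nm hnm V G ∪ {φ} := by
  ext ξ
  simp only [pull, Set.mem_union, Set.mem_singleton_iff, Set.mem_ofPred_eq,
    (sub_inj nm hnm V).eq_iff]

theorem pull_del (G : Set Form) (φ : Form) :
    pull nm hnm V (G \ {subst (th nm hnm V) φ}) = pull nm hnm V G \ {φ} := by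
  ext ξ
  simp only [pull, Set.mem_sdiff, Set.mem_singleton_iff, Set.mem_ofPred_eq,
    (sub_inj nm hnm V).eq_iff]

variable (hV : Dep V)

include hV in
theorem real_truth (ψ : Form) : ∀ (D : Set W) (G : Set Form) (w : W),
    (truthG (fun p _ _ => VN nm p) (subst (th nm hnm V) ψ) D G w ↔
      truthG V ψ D (pull nm hnm V G) w) := by
  induction ψ with
  | var p =>
    intro D G w
    have h := th_spec nm hnm V p D G w
    simp only [TU] at h
    simp only [subst, truthG]
    rw [h]
    exact hV p D _ _ w fun ψ hψ => by simp only [pull, Set.mem_ofPred_eq, hψ, true_and]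
  | neg φ ih => intro D G w; simp only [subst, truthG, ih]
  | and φ ψ ih1 ih2 => intro D G w; simp only [subst, truthG, ih1, ih2]
  | K φ ih => intro D G w; simp only [subst, truthG, ih]
  | E φ ih => intro D G w; simp only [subst, truthG, pull, Set.mem_ofPred_eq]
  | ann φ ψ ih1 ih2 => intro D G w; simp only [subst, truthG, ih1, ih2]
  | add φ ψ ih1 ih2 => intro D G w; simp only [subst, truthG, ih2, pull_add]
  | del φ ψ ih1 ih2 => intro D G w; simp only [subst, truthG, ih2, pull_del]
  | real φ ψ ih1 ih2 => intro D G w; simp only [subst, truthG, ih1, ih2, pull_add]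

end

/-- Realisation. -/
theorem realise {W : Type u} [Finite W] {V : ℕ → Set W → Set Form → W → Prop} (hV : Dep V)
    {τ : ℕ → Form} {φ : Form} {S : Set Form} {w : W}
    (h : ¬ truthG V (subst τ φ) Set.univ S w) : ¬ SchemValid.{u} φ := by
  intro hs
  obtain ⟨nm, hnm⟩ : ∃ nm : W → ℕ, Function.Injective nm := by
    obtain ⟨n, ⟨e⟩⟩ := Finite.exists_equiv_fin W
    exact ⟨fun w => (e w).1, fun a b hab => e.injective (Fin.ext hab)⟩
  let S0 : Set Form := {x | ∃ ξ ∈ S, subst (th nm hnm V) ξ = x}
  have hS : pull nm hnm V S0 = S := by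
    ext ξ
    simp only [pull, S0, Set.mem_ofPred_eq]
    constructor
    · rintro ⟨ξ', h1, h2⟩
      rwa [← sub_inj nm hnm V h2]
    · intro h1
      exact ⟨ξ, h1, rfl⟩
  rw [← hS, ← real_truth nm hnm V hV, subst_comp] at h
  let M : Model.{u} := ⟨W, fun _ _ => True, VN nm, fun _ => S0,
    ⟨fun _ => trivial, fun _ => trivial, fun _ _ => trivial⟩, fun _ _ _ => rfl⟩
  have h1 := hs (fun p => subst (th nm hnm V) (τ p)) M w
  have h2 := truth_class (C := W) id M.e M.V (fun _ _ => trivial) (fun _ v _ => ⟨v, rfl⟩)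
    (subst (fun p => subst (th nm hnm V) (τ p)) φ) Set.univ M.A S0 (fun _ => rfl) w
  exact h (h2.1 h1)

end R624EN
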